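import Pool.Agent.Helper113.Gorin.Defs
import Pool.Agent.Helper540.Holo
import Pool.Agent.FinVol2.WA

/-! Charts of complex submanifolds and the identity theorem on them. -/

set_option autoImplicit false
set_option maxHeartbeats 4000000
set_option synthInstance.maxHeartbeats 400000

open Metric Set Topology Filter

namespace Pool.Agent.J4.H11.QH

theorem exists_complement {m k : ℕ} (A : (Fin m → ℂ) →L[ℂ] (Fin k → ℂ))
    (hA : Function.Surjective A) :
    ∃ (n : ℕ) (B : (Fin m → ℂ) →L[ℂ] (Fin n → ℂ))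
      (E : (Fin m → ℂ) ≃L[ℂ] (Fin k → ℂ) × (Fin n → ℂ)),
      (E : (Fin m → ℂ) →L[ℂ] (Fin k → ℂ) × (Fin n → ℂ)) = A.prod B := by
  let A₀ : (Fin m → ℂ) →ₗ[ℂ] (Fin k → ℂ) := A
  let Kr := LinearMap.ker A₀
  let e := (Module.finBasis ℂ Kr).equivFun
  obtain ⟨P, hP⟩ := LinearMap.exists_leftInverse_of_injective Kr.subtype
    (LinearMap.ker_eq_bot.2 Kr.subtype_injective)
  let B₀ : (Fin m → ℂ) →ₗ[ℂ] (Fin (Module.finrank ℂ Kr) → ℂ) := e.toLinearMap ∘ₗ P
  let T : (Fin m → ℂ) →ₗ[ℂ] (Fin k → ℂ) × (Fin (Module.finrank ℂ Kr) → ℂ) := A₀.prod B₀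
  have hinj : Function.Injective T := by
    rw [← LinearMap.ker_eq_bot, LinearMap.ker_eq_bot']
    intro x hx
    have h1 : A₀ x = 0 := congrArg Prod.fst hx
    have h2 : e (P x) = 0 := congrArg Prod.snd hx
    have h3 : P x = ⟨x, h1⟩ := LinearMap.congr_fun hP ⟨x, h1⟩
    rw [LinearEquiv.map_eq_zero_iff, h3] at h2
    exact congrArg Subtype.val h2
  have hrank : Module.finrank ℂ (Fin m → ℂ) =
      Module.finrank ℂ ((Fin k → ℂ) × (Fin (Module.finrank ℂ Kr) → ℂ)) := by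
    have h1 := LinearMap.finrank_range_add_finrank_ker A₀
    have h2 : LinearMap.range A₀ = ⊤ := LinearMap.range_eq_top.2 hA
    rw [h2, finrank_top] at h1
    rw [Module.finrank_prod, ← h1]
    simp [Kr]
  have hsurj : Function.Surjective T :=
    (LinearMap.injective_iff_surjective_of_finrank_eq_finrank hrank).1 hinj
  refine ⟨Module.finrank ℂ Kr, LinearMap.toContinuousLinearMap B₀,
    (LinearEquiv.ofBijective T ⟨hinj, hsurj⟩).toContinuousLinearEquiv, ?_⟩
  ext x : 1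
  rfl

theorem hasCharts_of_isSmooth {m : ℕ} {Y : Set (Fin m → ℂ)} (h : H113G.IsSmooth Y) :
    H113G.HasCharts Y := by
  intro p hp N hN
  obtain ⟨U, hU, hpU, k, F, hF, hsurj, hYU⟩ := h p hp
  obtain ⟨n, B, E, hE⟩ := exists_complement (fderiv ℂ F p) (hsurj p hpU)
  let G : (Fin m → ℂ) → (Fin k → ℂ) × (Fin n → ℂ) := fun x => (F x, B x)
  have hG : ContDiffAt ℂ 1 G p :=
    ((Pool.Agent.Helper540.contDiffOn_of_differentiableOn hU hF 1).contDiffAt
      (hU.mem_nhds hpU)).prodMk B.contDiff.contDiffAt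
  have hG' : HasFDerivAt G (E : (Fin m → ℂ) →L[ℂ] (Fin k → ℂ) × (Fin n → ℂ)) p := by
    rw [hE]
    exact ((hF.differentiableAt (hU.mem_nhds hpU)).hasFDerivAt).prodMk B.hasFDerivAt
  let H := hG.toOpenPartialHomeomorph G hG' one_ne_zero
  have hHG : ∀ x, H x = G x := fun x => rfl
  have hps : p ∈ H.source := hG.mem_toOpenPartialHomeomorph_source hG' one_ne_zero
  have hpt : G p ∈ H.target := hG.image_mem_toOpenPartialHomeomorph_target hG' one_ne_zero
  have hHp : H.symm (G p) = p := H.left_inv hps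
  have hsymm : ContDiffAt ℂ 1 H.symm (G p) := by
    refine H.contDiffAt_symm hpt (f₀' := E) ?_ ?_
    · rw [hHp]; exact hG'
    · rw [hHp]; exact hG
  have hW : {q | q ∈ H.target ∧ DifferentiableAt ℂ H.symm q ∧ H.symm q ∈ N ∩ U} ∈ 𝓝 (G p) := by
    have h1 : ∀ᶠ q in 𝓝 (G p), q ∈ H.target := H.open_target.mem_nhds hpt
    have h2 : ∀ᶠ q in 𝓝 (G p), DifferentiableAt ℂ H.symm q :=
      (hsymm.eventually (by simp)).mono fun q hq => hq.differentiableAt one_ne_zero
    have h3 : ∀ᶠ q in 𝓝 (G p), H.symm q ∈ N ∩ U := by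
      have : ContinuousAt H.symm (G p) := hsymm.continuousAt
      refine this.preimage_mem_nhds ?_
      rw [hHp]; exact inter_mem hN (hU.mem_nhds hpU)
    exact h1.and (h2.and h3)
  obtain ⟨ρ, hρ, hball⟩ := Metric.mem_nhds_iff.1 hW
  have hFp : F p = 0 := by
    have : p ∈ U ∩ F ⁻¹' {0} := hYU ▸ ⟨hp, hpU⟩
    exact this.2
  have hGp : G p = (0, B p) := by simp only [G, hFp]
  have hρc : (ρ : ℂ) ≠ 0 := by exact_mod_cast hρ.ne'
  let q : (Fin n → ℂ) → (Fin k → ℂ) × (Fin n → ℂ) := fun x => (0, B p + (ρ : ℂ) • x)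
  have hq : ∀ x ∈ ball (0 : Fin n → ℂ) 1, q x ∈ ball (G p) ρ := by
    intro x hx
    rw [mem_ball_zero_iff] at hx
    rw [hGp, mem_ball, Prod.dist_eq, max_lt_iff]
    refine ⟨by simpa [q] using hρ, ?_⟩
    simp only [q, dist_self_add_left, norm_smul, Complex.norm_real, Real.norm_eq_abs,
      abs_of_pos hρ]
    nlinarith
  refine ⟨n, fun x => H.symm (q x), fun y => (ρ : ℂ)⁻¹ • (B y - B p),
    H.source ∩ H ⁻¹' ball (G p) ρ, ?_, ?_, ?_, ?_, ?_, ?_, ?_, ?_⟩
  · exact H.isOpen_inter_preimage isOpen_ball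
  · exact ⟨hps, mem_ball_self hρ⟩
  · rintro y ⟨hy, hyb⟩
    have := (hball hyb).2.2.1
    rwa [H.left_inv hy] at this
  · intro x hx
    have h1 := (hball (hq x hx)).2.1
    have h2 : DifferentiableAt ℂ q x := by
      exact DifferentiableAt.prodMk (by fun_prop) (by fun_prop)
    exact (h1.comp x h2).differentiableWithinAt
  · have : q 0 = G p := by rw [hGp]; simp [q]
    change H.symm (q 0) = p
    rw [this, hHp]
  · ext y
    constructor
    · rintro ⟨x, hx, rfl⟩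
      have h1 := hball (hq x hx)
      have h2 : H (H.symm (q x)) = q x := H.right_inv h1.1
      refine ⟨?_, H.map_target h1.1, ?_⟩
      · have h3 : H.symm (q x) ∈ Y ∩ U := by
          rw [hYU]
          refine ⟨h1.2.2.2, ?_⟩
          exact congrArg Prod.fst h2
        exact h3.1
      · change H (H.symm (q x)) ∈ ball (G p) ρ
        rw [h2]; exact hq x hx
    · rintro ⟨hyY, hys, hyb⟩
      have hyU : y ∈ U := by
        have := (hball hyb).2.2.2
        rwa [H.left_inv hys] at this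
      have hFy : F y = 0 := by
        have : y ∈ U ∩ F ⁻¹' {0} := hYU ▸ ⟨hyY, hyU⟩
        exact this.2
      have hGy : H y = (0, B y) := by rw [hHG]; simp only [G, hFy]
      refine ⟨(ρ : ℂ)⁻¹ • (B y - B p), ?_, ?_⟩
      · have h1 : H y ∈ ball (G p) ρ := hyb
        rw [hGy, hGp, mem_ball, Prod.dist_eq, max_lt_iff, dist_eq_norm, dist_eq_norm] at h1
        rw [mem_ball_zero_iff, norm_smul, norm_inv, Complex.norm_real, Real.norm_eq_abs,
          abs_of_pos hρ, inv_mul_lt_iff₀ hρ, mul_one]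
        exact h1.2
      · have h1 : q ((ρ : ℂ)⁻¹ • (B y - B p)) = H y := by
          rw [hGy]; simp only [q]
          rw [smul_smul, mul_inv_cancel₀ hρc, one_smul, add_sub_cancel]
        change H.symm (q _) = y
        rw [h1, H.left_inv hys]
  · exact Continuous.continuousOn (by fun_prop)
  · intro x hx
    have h1 := hball (hq x hx)
    have h2 : H (H.symm (q x)) = q x := H.right_inv h1.1
    have h3 : B (H.symm (q x)) = B p + (ρ : ℂ) • x := congrArg Prod.snd h2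
    change (ρ : ℂ)⁻¹ • (B (H.symm (q x)) - B p) = x
    rw [h3, add_sub_cancel_left, smul_smul, inv_mul_cancel₀ hρc, one_smul]

/-- several variables: differentiable on an open set implies analytic -/
theorem analyticOnNhd_of_differentiableOn {k : ℕ} {U : Set (Fin k → ℂ)} (hU : IsOpen U)
    {f : (Fin k → ℂ) → ℂ} (hf : DifferentiableOn ℂ f U) : AnalyticOnNhd ℂ f U := by
  intro z hz
  obtain ⟨ρ, hρ, hb⟩ := Metric.mem_nhds_iff.1 (hU.mem_nhds hz)
  refine FinVol2.WA.analyticAt_of_differentiable k z (ρ / 2) (by positivity) f fun w hw => ?_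
  refine hf.differentiableAt (hU.mem_nhds (hb ?_))
  rw [mem_ball, dist_pi_lt_iff hρ]
  intro i
  have := hw i
  rw [mem_closedBall] at this
  linarith

/-- identity theorem on a submanifold -/
theorem eq_zero_of_eventually {m : ℕ} {Y : Set (Fin m → ℂ)} (hY : H113G.HasCharts Y)
    (hc : IsPreconnected Y) {u : (Fin m → ℂ) → ℂ} (hu : H113G.HolOn Y u) {p : Fin m → ℂ}
    (hp : p ∈ Y) (h0 : ∀ᶠ y in 𝓝[Y] p, u y = 0) : ∀ y ∈ Y, u y = 0 := by
  have : PreconnectedSpace Y := isPreconnected_iff_preconnectedSpace.1 hc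
  let T : Set Y := {y | ∀ᶠ z in 𝓝 y, u z.1 = 0}
  have hTo : IsOpen T := isOpen_setOfPred_eventually_nhds
  have hpT : (⟨p, hp⟩ : Y) ∈ T := by
    have h1 : ∀ᶠ z in 𝓝 (⟨p, hp⟩ : Y), u z.1 = 0 := by
      rw [nhds_subtype_eq_comap_nhdsWithin]
      exact h0.comap _
    exact h1
  have hTc : IsClosed T := by
    refine isClosed_of_closure_subset fun x hx => ?_
    obtain ⟨U, hU, hxU, h, hh, hhu⟩ := hu x.1 x.2
    obtain ⟨n, ψ, κ, V, hV, hxV, hVU, hψd, hψ0, hψi, -, -⟩ := hY x.1 x.2 U (hU.mem_nhds hxU)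
    have hmem : ∀ z ∈ ball (0 : Fin n → ℂ) 1, ψ z ∈ Y ∩ V := fun z hz =>
      hψi ▸ mem_image_of_mem ψ hz
    have hd : DifferentiableOn ℂ (fun z => h (ψ z)) (ball 0 1) :=
      hh.comp hψd fun z hz => hVU (hmem z hz).2
    have han := analyticOnNhd_of_differentiableOn isOpen_ball hd
    have hV' : IsOpen ((Subtype.val : Y → Fin m → ℂ) ⁻¹' V) := hV.preimage continuous_subtype_val
    obtain ⟨y, hyV, hyT⟩ := mem_closure_iff.1 hx _ hV' hxV
    obtain ⟨z₀, hz₀, hz₀y⟩ : y.1 ∈ ψ '' ball 0 1 := by rw [hψi]; exact ⟨y.2, hyV⟩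
    have h1 : ∀ᶠ z in 𝓝 z₀, h (ψ z) = 0 := by
      have hyT' : ∀ᶠ z in 𝓝[Y] y.1, u z = 0 := by
        have h2 : ∀ᶠ z in 𝓝 y, u z.1 = 0 := hyT
        rw [nhds_subtype_eq_comap_nhdsWithin, eventually_comap] at h2
        filter_upwards [h2, self_mem_nhdsWithin] with z hz hzY
        exact hz ⟨z, hzY⟩ rfl
      have hψc : ContinuousAt ψ z₀ := (hψd.differentiableAt (isOpen_ball.mem_nhds hz₀)).continuousAt
      have hψt : Tendsto ψ (𝓝 z₀) (𝓝[Y] y.1) := by
        refine tendsto_nhdsWithin_iff.2 ⟨?_, ?_⟩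
        · rw [← hz₀y]; exact hψc
        · filter_upwards [isOpen_ball.mem_nhds hz₀] with z hz
          exact (hmem z hz).1
      filter_upwards [hψt.eventually hyT', isOpen_ball.mem_nhds hz₀] with z hz hzb
      rw [hhu _ (hmem z hzb).1 (hVU (hmem z hzb).2), hz]
    have h2 := han.eqOn_zero_of_preconnected_of_eventuallyEq_zero
      (convex_ball (0 : Fin n → ℂ) 1).isPreconnected hz₀ h1
    change ∀ᶠ z in 𝓝 x, u z.1 = 0
    filter_upwards [hV'.mem_nhds hxV] with z hz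
    obtain ⟨w, hw, hwz⟩ : z.1 ∈ ψ '' ball 0 1 := by rw [hψi]; exact ⟨z.2, hz⟩
    rw [← hhu _ z.2 (hVU hz), ← hwz]
    exact h2 hw
  have hT : T = univ := IsClopen.eq_univ ⟨hTc, hTo⟩ ⟨_, hpT⟩
  intro y hy
  have h1 : (⟨y, hy⟩ : Y) ∈ T := hT ▸ mem_univ _
  have h2 : ∀ᶠ z in 𝓝 (⟨y, hy⟩ : Y), u z.1 = 0 := h1
  exact h2.self_of_nhds

end Pool.Agent.J4.H11.QH
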