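import Pool.Agent.J4.H11.QH.Nondeg
import Pool.Agent.Helper688_Crit.BEZ

/-! Counting nondegenerate zeros of a polynomial map with values in a field. -/

set_option autoImplicit false
set_option maxHeartbeats 4000000
set_option synthInstance.maxHeartbeats 400000

open MvPolynomial

namespace Pool.Agent.J4.H11.QH

theorem exists_generic {V : Type*} [AddCommGroup V] [Module ℝ V] {N : ℕ} {ι : Type*} [Fintype ι]
    (T : ι → (Fin N → ℝ) →ₗ[ℝ] V) (hT : ∀ i, Function.Injective (T i)) :
    ∃ Λ : V →ₗ[ℝ] (Fin N → ℝ), ∀ i, Function.Injective (Λ ∘ₗ T i) := by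
  classical
  have hl : ∀ i, ∃ L : V →ₗ[ℝ] (Fin N → ℝ), L ∘ₗ T i = LinearMap.id := fun i =>
    LinearMap.exists_leftInverse_of_injective (T i) (LinearMap.ker_eq_bot.2 (hT i))
  choose L hL using hl
  let M : ι → ι → Matrix (Fin N) (Fin N) ℝ := fun i j => LinearMap.toMatrix' (L j ∘ₗ T i)
  let Q : ι → MvPolynomial ι ℝ := fun i =>
    Matrix.det (Matrix.of fun a b => ∑ j, C (M i j a b) * X j)
  have hQ : ∀ i (c : ι → ℝ), eval c (Q i) = (LinearMap.toMatrix' ((∑ j, c j • L j) ∘ₗ T i)).det := by
    intro i c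
    simp only [Q]
    rw [RingHom.map_det]
    congr 1
    ext a b
    simp only [RingHom.mapMatrix_apply, Matrix.map_apply, Matrix.of_apply, map_sum, map_mul,
      eval_C, eval_X, M, LinearMap.toMatrix'_apply, LinearMap.comp_apply, LinearMap.sum_apply,
      LinearMap.smul_apply, Finset.sum_apply, Pi.smul_apply, smul_eq_mul]
    exact Finset.sum_congr rfl fun _ _ => mul_comm _ _
  have hQ0 : ∀ i, Q i ≠ 0 := by
    intro i h0
    have h1 := hQ i (Pi.single i 1)
    have h2 : (∑ j, (Pi.single i (1 : ℝ) : ι → ℝ) j • L j) = L i := by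
      rw [Finset.sum_eq_single i]
      · simp
      · intro j _ hj; simp [Pi.single_eq_of_ne hj]
      · intro h; exact absurd (Finset.mem_univ _) h
    rw [h0, map_zero, h2, hL i, LinearMap.toMatrix'_id, Matrix.det_one] at h1
    exact zero_ne_one h1
  have hP : (∏ i, Q i) ≠ 0 := Finset.prod_ne_zero_iff.2 fun i _ => hQ0 i
  obtain ⟨c, hc⟩ : ∃ c : ι → ℝ, eval c (∏ i, Q i) ≠ 0 := by
    by_contra hc
    push Not at hc
    exact hP (MvPolynomial.funext fun c => by rw [hc c, map_zero])
  rw [map_prod, Finset.prod_ne_zero_iff] at hc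
  refine ⟨∑ j, c j • L j, fun i => ?_⟩
  have h1 := hc i (Finset.mem_univ _)
  rw [hQ i c] at h1
  rw [← LinearMap.ker_eq_bot]
  by_contra hk
  apply h1
  rw [LinearMap.det_toMatrix']
  exact LinearMap.det_eq_zero_iff_ker_ne_bot.2 hk

variable {K : Type*} [Field K] [Algebra ℂ K] {r : ℕ}

/-- first half of the coordinates -/
def fstc (x : Fin (r + r) → ℝ) : Fin r → ℝ := fun j => x (Fin.castAdd r j)

/-- second half of the coordinates -/
def sndc (x : Fin (r + r) → ℝ) : Fin r → ℝ := fun j => x (Fin.natAdd r j)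

/-- linear form in the first half -/
noncomputable def fstP (w : Fin r → K) : MvPolynomial (Fin (r + r)) K :=
  ∑ j, C (w j) * X (Fin.castAdd r j)

/-- linear form in the second half -/
noncomputable def sndP (w : Fin r → K) : MvPolynomial (Fin (r + r)) K :=
  ∑ j, C (w j) * X (Fin.natAdd r j)

/-- the cubic map as a polynomial -/
noncomputable def EP (w w' : Fin r → K) : MvPolynomial (Fin (r + r)) K :=
  sndP w * fstP w' - fstP w * sndP w' - fstP w * sndP w * (sndP w - fstP w)

theorem eval_EP (w w' : Fin r → K) (x : Fin (r + r) → ℝ) :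
    eval (fun i => algebraMap ℝ K (x i)) (EP w w') = EE w w' (fstc x) (sndc x) := by
  have h1 : ∀ w : Fin r → K, eval (fun i => algebraMap ℝ K (x i)) (fstP w) = cb w (fstc x) := by
    intro w
    simp only [fstP, cb, fstc, map_sum, map_mul, eval_C, eval_X]
    exact Finset.sum_congr rfl fun _ _ => mul_comm _ _
  have h2 : ∀ w : Fin r → K, eval (fun i => algebraMap ℝ K (x i)) (sndP w) = cb w (sndc x) := by
    intro w
    simp only [sndP, cb, sndc, map_sum, map_mul, eval_C, eval_X]
    exact Finset.sum_congr rfl fun _ _ => mul_comm _ _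
  simp only [EP, EE, map_sub, map_mul, h1, h2]

omit [Algebra ℂ K] in
theorem deg_EP (w w' : Fin r → K) : (EP w w').totalDegree ≤ 3 := by
  have h1 : ∀ w : Fin r → K, (fstP w).totalDegree ≤ 1 := by
    intro w
    refine totalDegree_finsetSum_le fun j _ => (totalDegree_mul _ _).trans ?_
    rw [totalDegree_C, totalDegree_X]
  have h2 : ∀ w : Fin r → K, (sndP w).totalDegree ≤ 1 := by
    intro w
    refine totalDegree_finsetSum_le fun j _ => (totalDegree_mul _ _).trans ?_
    rw [totalDegree_C, totalDegree_X]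
  have e1 := (totalDegree_mul (sndP w) (fstP w')).trans (add_le_add (h2 w) (h1 w'))
  have e2 := (totalDegree_mul (fstP w) (sndP w')).trans (add_le_add (h1 w) (h2 w'))
  have e3 := (totalDegree_mul (fstP w) (sndP w)).trans (add_le_add (h1 w) (h2 w))
  have e4 := (totalDegree_sub (sndP w) (fstP w)).trans (max_le (h2 w) (h1 w))
  have e5 := (totalDegree_mul (fstP w * sndP w) (sndP w - fstP w)).trans (add_le_add e3 e4)
  have e6 := (totalDegree_sub (sndP w * fstP w') (fstP w * sndP w')).trans (max_le e1 e2)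
  refine (totalDegree_sub _ _).trans (max_le (e6.trans (by norm_num)) (e5.trans (by norm_num)))

/-- apply a real linear form to the coefficients -/
noncomputable def real {N : ℕ} (L : K →ₗ[ℝ] ℝ) (P : MvPolynomial (Fin N) K) :
    MvPolynomial (Fin N) ℝ := ∑ d ∈ P.support, monomial d (L (coeff d P))

theorem eval_real {N : ℕ} (L : K →ₗ[ℝ] ℝ) (P : MvPolynomial (Fin N) K) (x : Fin N → ℝ) :
    eval x (real L P) = L (eval (fun i => algebraMap ℝ K (x i)) P) := by
  rw [real, map_sum, MvPolynomial.eval_eq', map_sum]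
  refine Finset.sum_congr rfl fun d _ => ?_
  rw [eval_monomial, Finsupp.prod_fintype _ _ (fun _ => pow_zero _)]
  have : coeff d P * ∏ i, algebraMap ℝ K (x i) ^ d i = (∏ i, x i ^ d i) • coeff d P := by
    rw [Algebra.smul_def, map_prod, mul_comm]
    simp only [map_pow]
  rw [this, map_smul, smul_eq_mul, mul_comm]

theorem deg_real {N : ℕ} (L : K →ₗ[ℝ] ℝ) (P : MvPolynomial (Fin N) K) :
    (real L P).totalDegree ≤ P.totalDegree := by
  refine totalDegree_finsetSum_le fun d hd => ?_
  exact (totalDegree_monomial_le _ _).trans (le_totalDegree hd)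

/-- the differential as a linear map -/
noncomputable def dT (w w' : Fin r → K) (a : Fin (r + r) → ℝ) : (Fin (r + r) → ℝ) →ₗ[ℝ] K where
  toFun v := dEE w w' (fstc a) (sndc a) (fstc v) (sndc v)
  map_add' v v' := by
    have h1 : fstc (v + v') = fstc v + fstc v' := rfl
    have h2 : sndc (v + v') = sndc v + sndc v' := rfl
    simp only [dEE, h1, h2, cb_add]; ring
  map_smul' t v := by
    have h1 : fstc (t • v) = t • fstc v := rfl
    have h2 : sndc (t • v) = t • sndc v := rfl
    rw [h1, h2]
    simp only [dEE, cb_smul, RingHom.id_apply]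
    rw [Algebra.smul_def]; ring

theorem dT_apply (w w' : Fin r → K) (a v : Fin (r + r) → ℝ) :
    dT w w' a v = dEE w w' (fstc a) (sndc a) (fstc v) (sndc v) := rfl

theorem fderiv_real (L : K →ₗ[ℝ] ℝ) (w w' : Fin r → K) (a v : Fin (r + r) → ℝ) :
    fderiv ℝ (fun x => eval x (real L (EP w w'))) a v = L (dT w w' a v) := by
  have hd : DifferentiableAt ℝ (fun x : Fin (r + r) → ℝ => eval x (real L (EP w w'))) a :=
    ((AnalyticOnNhd.eval_mvPolynomial (real L (EP w w'))) a (Set.mem_univ _)).differentiableAt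
  have h1 : HasDerivAt (fun t : ℝ => a + t • v) v 0 := by
    simpa using ((hasDerivAt_id (0 : ℝ)).smul_const v).const_add a
  have h2 : HasDerivAt (fun t : ℝ => eval (a + t • v) (real L (EP w w')))
      (fderiv ℝ (fun x => eval x (real L (EP w w'))) a v) 0 := by
    have h3 : HasFDerivAt (fun x : Fin (r + r) → ℝ => eval x (real L (EP w w')))
        (fderiv ℝ (fun x => eval x (real L (EP w w'))) a) (a + (0 : ℝ) • v) := by
      simpa using hd.hasFDerivAt
    exact h3.comp_hasDerivAt (0 : ℝ) h1
  set m := fstc a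
  set n := sndc a
  set μ := fstc v
  set ν := sndc v
  have h3 : ∀ t : ℝ, eval (a + t • v) (real L (EP w w')) =
      L (EE w w' m n) + t * L (dT w w' a v) + t ^ 2 * L (cb w ν * cb w' μ - cb w μ * cb w' ν
        - (cb w μ * cb w ν * (cb w n - cb w m) + cb w μ * cb w n * (cb w ν - cb w μ) +
          cb w m * cb w ν * (cb w ν - cb w μ))) +
        t ^ 3 * L (- (cb w μ * cb w ν * (cb w ν - cb w μ))) := by
    intro t
    rw [eval_real, eval_EP]
    have e1 : fstc (a + t • v) = m + t • μ := rfl
    have e2 : sndc (a + t • v) = n + t • ν := rfl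
    have e3 : ∀ (c : ℝ) (k : K), c * L k = L (algebraMap ℝ K c * k) := by
      intro c k; rw [← Algebra.smul_def, map_smul, smul_eq_mul]
    rw [e3, e3, e3, ← map_add, ← map_add, ← map_add]
    congr 1
    rw [e1, e2, dT_apply]
    simp only [EE, dEE, cb_add, cb_smul, map_pow]
    ring
  have h4 : HasDerivAt (fun t : ℝ => eval (a + t • v) (real L (EP w w'))) (L (dT w w' a v)) 0 := by
    rw [show (fun t : ℝ => eval (a + t • v) (real L (EP w w'))) = _ from funext h3]
    have h5 : ∀ A B C D : ℝ, HasDerivAt (fun t : ℝ => A + t * B + t ^ 2 * C + t ^ 3 * D) B 0 := by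
      intro A B C D
      have g1 : HasDerivAt (fun t : ℝ => t * B) B 0 := by
        simpa using (hasDerivAt_id (0 : ℝ)).mul_const B
      have g2 : HasDerivAt (fun t : ℝ => t ^ 2 * C) 0 0 := by
        simpa using (hasDerivAt_pow 2 (0 : ℝ)).mul_const C
      have g3 : HasDerivAt (fun t : ℝ => t ^ 3 * D) 0 0 := by
        simpa using (hasDerivAt_pow 3 (0 : ℝ)).mul_const D
      simpa using ((g1.const_add A).fun_add g2).fun_add g3
    exact h5 _ _ _ _
  exact h2.unique h4

theorem count_le (w w' : Fin r → K) (F : Finset (Fin (r + r) → ℝ))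
    (hE : ∀ p ∈ F, EE w w' (fstc p) (sndc p) = 0)
    (hd : ∀ p ∈ F, ∀ μ ν, dEE w w' (fstc p) (sndc p) μ ν = 0 → μ = 0 ∧ ν = 0) :
    F.card ≤ (6 * r + 1) ^ (2 * r) := by
  classical
  have hinj : ∀ i : F, Function.Injective (dT w w' (i : Fin (r + r) → ℝ)) := by
    intro i
    rw [← LinearMap.ker_eq_bot, LinearMap.ker_eq_bot']
    intro v hv
    rw [dT_apply] at hv
    obtain ⟨h1, h2⟩ := hd i i.2 _ _ hv
    funext j
    refine Fin.addCases (fun j => ?_) (fun j => ?_) j
    · exact congrFun h1 j
    · exact congrFun h2 j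
  obtain ⟨Λ, hΛ⟩ := exists_generic (fun i : F => dT w w' (i : Fin (r + r) → ℝ)) hinj
  let L : Fin (r + r) → (K →ₗ[ℝ] ℝ) := fun l => LinearMap.proj l ∘ₗ Λ
  let p : Fin (r + r) → MvPolynomial (Fin (r + r)) ℝ := fun l => real (L l) (EP w w')
  have h := Pool.Agent.Helper688.Crit.BEZ.bezout (r + r) 3 Finset.univ p 1
    (fun l _ => (deg_real _ _).trans (deg_EP w w')) (by simp) 0 F (by
      intro x hx
      refine ⟨by simp, ?_, ?_⟩
      · funext l
        simp only [Pool.Agent.Helper688.Crit.gmap, Finset.mem_univ, if_true, map_one, div_one,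
          Pi.zero_apply, p]
        rw [eval_real, eval_EP, hE x hx, map_zero]
      · have e : (Pool.Agent.Helper688.Crit.gmap Finset.univ (fun l y =>
            MvPolynomial.eval y (p l) / MvPolynomial.eval y 1)) =
            fun y l => eval y (p l) := by
          funext y l
          simp [Pool.Agent.Helper688.Crit.gmap]
        rw [e]
        intro h0
        have h1 := LinearMap.det_eq_zero_iff_ker_ne_bot.1 h0
        apply h1
        rw [LinearMap.ker_eq_bot']
        intro v hv
        have h2 : (Λ ∘ₗ dT w w' x) v = 0 := by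
          funext l
          have h3 := congrFun hv l
          have h4 : (fderiv ℝ (fun (y : Fin (r + r) → ℝ) l => eval y (p l)) x) v l =
              fderiv ℝ (fun y => eval y (p l)) x v := by
            rw [fderiv_pi (φ := fun l y => eval y (p l))
              (fun l => ((AnalyticOnNhd.eval_mvPolynomial (p l)) x
              (Set.mem_univ _)).differentiableAt)]
            rfl
          simp only [ContinuousLinearMap.coe_coe, Pi.zero_apply] at h3
          rw [h4] at h3
          simp only [p] at h3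
          rw [fderiv_real] at h3
          exact h3
        exact (LinearMap.ker_eq_bot'.1 (LinearMap.ker_eq_bot.2 (hΛ ⟨x, hx⟩))) v h2)
  rw [Finset.card_univ, Fintype.card_fin] at h
  rw [show 6 * r + 1 = (r + r) * 3 + 1 by ring, show 2 * r = r + r by ring]
  exact h

end Pool.Agent.J4.H11.QH
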