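import Pool.Agent.J4.H11.QH.Unit

/-! The field generated by algebraic germs, and the bound for germs. -/

set_option autoImplicit false
set_option maxHeartbeats 4000000
set_option synthInstance.maxHeartbeats 400000

open Set Topology Filter Polynomial FF

namespace Pool.Agent.J4.H11.QH

/-- functions analytic at `0` -/
def A0 : Subalgebra ℂ (ℂ → ℂ) where
  carrier := {f | AnalyticAt ℂ f 0}
  mul_mem' := fun ha hb => ha.mul hb
  add_mem' := fun ha hb => ha.add hb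
  algebraMap_mem' := fun _ => analyticAt_const

/-- functions vanishing near `0` -/
def N0 : Ideal A0 where
  carrier := {f | ∀ᶠ t in 𝓝 (0 : ℂ), f.1 t = 0}
  add_mem' := fun {a b} ha hb => by
    have ha' : ∀ᶠ t in 𝓝 (0 : ℂ), a.1 t = 0 := ha
    have hb' : ∀ᶠ t in 𝓝 (0 : ℂ), b.1 t = 0 := hb
    filter_upwards [ha', hb'] with t h1 h2
    change a.1 t + b.1 t = 0
    rw [h1, h2, add_zero]
  zero_mem' := Eventually.of_forall fun t => rfl
  smul_mem' := fun c a ha => by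
    have ha' : ∀ᶠ t in 𝓝 (0 : ℂ), a.1 t = 0 := ha
    filter_upwards [ha'] with t h1
    change c.1 t * a.1 t = 0
    rw [h1, mul_zero]

theorem mem_N0 {f : A0} : f ∈ N0 ↔ ∀ᶠ t in 𝓝 (0 : ℂ), f.1 t = 0 := Iff.rfl

theorem N0_prime : N0.IsPrime := by
  refine ⟨?_, ?_⟩
  · intro h
    have h1 : (1 : A0) ∈ N0 := by rw [h]; trivial
    have h2 := (mem_N0.1 h1).self_of_nhds
    exact one_ne_zero h2
  · intro f g hfg
    rw [mem_N0] at hfg ⊢
    rw [mem_N0]
    rcases f.2.eventually_eq_zero_or_eventually_ne_zero with h | h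
    · exact Or.inl h
    · rcases g.2.eventually_eq_zero_or_eventually_ne_zero with h' | h'
      · exact Or.inr h'
      · exfalso
        have h3 : ∀ᶠ t in 𝓝[≠] (0 : ℂ), False := by
          filter_upwards [h, h', hfg.filter_mono nhdsWithin_le_nhds] with t h1 h2 h3
          have h4 : f.1 t * g.1 t = 0 := h3
          rcases mul_eq_zero.1 h4 with h5 | h5
          · exact h1 h5
          · exact h2 h5
        have h4 : (𝓝[≠] (0 : ℂ)).NeBot := inferInstance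
        exact h4.ne (by simpa using h3)

/-- the field of germs of meromorphic functions -/
theorem exists_field : ∃ (F : Type) (_ : Field F) (_ : Algebra ℂ F) (φ : A0 →ₐ[ℂ] F),
    ∀ f : A0, φ f = 0 ↔ ∀ᶠ t in 𝓝 (0 : ℂ), f.1 t = 0 := by
  have hp := N0_prime
  refine ⟨N0.ResidueField, inferInstance, inferInstance, Algebra.algHom ℂ A0 N0.ResidueField, ?_⟩
  intro f
  rw [← mem_N0]
  exact Ideal.algebraMap_residueField_eq_zero

/-- the coordinate -/
def idA : A0 := ⟨fun t => t, analyticAt_id⟩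

/-- evaluation at a point -/
def evA (t : ℂ) : A0 →+* ℂ := (Pi.evalRingHom (fun _ : ℂ => ℂ) t).comp A0.val.toRingHom

theorem evA_apply (t : ℂ) (f : A0) : evA t f = f.1 t := rfl

theorem evA_aeval (t : ℂ) : (evA t).comp ((aeval idA : ℂ[X] →ₐ[ℂ] A0) : ℂ[X] →+* A0) =
    evalRingHom t := by
  refine Polynomial.ringHom_ext (fun c => ?_) ?_
  · simp only [RingHom.comp_apply, RingHom.coe_coe, aeval_C, coe_evalRingHom, eval_C]
    rfl
  · simp only [RingHom.comp_apply, RingHom.coe_coe, aeval_X, coe_evalRingHom, eval_X]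
    rfl

theorem aeval_idA (p : ℂ[X]) (t : ℂ) : (aeval idA p).1 t = p.eval t := by
  rw [← evA_apply, ← coe_evalRingHom, ← evA_aeval]
  rfl

variable {F : Type} [Field F] [Algebra ℂ F] {ph : A0 →ₐ[ℂ] F}

theorem ph_eq (hph : ∀ f : A0, ph f = 0 ↔ ∀ᶠ t in 𝓝 (0 : ℂ), f.1 t = 0) {f g : A0} :
    ph f = ph g ↔ ∀ᶠ t in 𝓝 (0 : ℂ), f.1 t = g.1 t := by
  rw [← sub_eq_zero, ← map_sub, hph]
  refine eventually_congr (Eventually.of_forall fun t => ?_)
  change f.1 t - g.1 t = 0 ↔ _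
  rw [sub_eq_zero]

theorem tau_transcendental (hph : ∀ f : A0, ph f = 0 ↔ ∀ᶠ t in 𝓝 (0 : ℂ), f.1 t = 0) :
    Transcendental ℂ (ph idA) := by
  rw [transcendental_iff]
  intro p hp
  rw [aeval_algHom_apply, hph] at hp
  simp only [aeval_idA] at hp
  by_contra h0
  have h1 : {t : ℂ | p.IsRoot t}.Infinite := by
    have h2 : {t : ℂ | p.IsRoot t} ∈ 𝓝 (0 : ℂ) := hp
    exact infinite_of_mem_nhds 0 h2
  exact h0 (Polynomial.eq_zero_of_infinite_isRoot p h1)

/-- an algebraic relation between functions gives an integral equation between germs -/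
theorem relation (hph : ∀ f : A0, ph f = 0 ↔ ∀ᶠ t in 𝓝 (0 : ℂ), f.1 t = 0) (u : A0) (Q : ℂ[X][X])
    (hQ : ∀ᶠ t in 𝓝 (0 : ℂ), (Q.map (evalRingHom t)).eval (u.1 t) = 0) :
    Q.eval₂ ((aeval (ph idA) : ℂ[X] →ₐ[ℂ] F) : ℂ[X] →+* F) (ph u) = 0 := by
  have h1 : ((aeval (ph idA) : ℂ[X] →ₐ[ℂ] F) : ℂ[X] →+* F) =
      (ph : A0 →+* F).comp ((aeval idA : ℂ[X] →ₐ[ℂ] A0) : ℂ[X] →+* A0) := by
    refine Polynomial.ringHom_ext (fun c => ?_) ?_
    · simp
    · simp
  have h2 : Q.eval₂ ((aeval (ph idA) : ℂ[X] →ₐ[ℂ] F) : ℂ[X] →+* F) (ph u) =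
      ph (Q.eval₂ ((aeval idA : ℂ[X] →ₐ[ℂ] A0) : ℂ[X] →+* A0) u) := by
    rw [h1]
    exact (Polynomial.hom_eval₂ Q _ (ph : A0 →+* F) u).symm
  rw [h2, hph]
  filter_upwards [hQ] with t ht
  rw [← evA_apply, Polynomial.hom_eval₂, evA_aeval, evA_apply, ← Polynomial.eval_map]
  exact ht

/-- integer powers of germs of nowhere zero functions -/
theorem exists_zpow (hph : ∀ f : A0, ph f = 0 ↔ ∀ᶠ t in 𝓝 (0 : ℂ), f.1 t = 0) (w : A0) (h0 : w.1 0 ≠ 0) (n : ℤ) :
    ∃ w' : A0, (∀ t, w'.1 t = w.1 t ^ n) ∧ ph w' = ph w ^ n := by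
  have hinv : ∀ w : A0, w.1 0 ≠ 0 → ∃ w' : A0, (∀ t, w'.1 t = (w.1 t)⁻¹) ∧ ph w' = (ph w)⁻¹ := by
    intro w h0
    refine ⟨⟨fun t => (w.1 t)⁻¹, w.2.fun_inv h0⟩, fun t => rfl, ?_⟩
    refine eq_inv_of_mul_eq_one_left ?_
    rw [← map_mul, ← map_one ph, ph_eq hph]
    filter_upwards [w.2.continuousAt.eventually_ne h0] with t ht
    exact inv_mul_cancel₀ ht
  cases n with
  | ofNat n =>
    refine ⟨w ^ n, fun t => ?_, ?_⟩
    · simp
    · rw [map_pow]; simp
  | negSucc n =>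
    obtain ⟨w', h1, h2⟩ := hinv (w ^ (n + 1)) (pow_ne_zero _ h0)
    refine ⟨w', fun t => ?_, ?_⟩
    · rw [h1, zpow_negSucc]; rfl
    · rw [h2, map_pow, zpow_negSucc]

theorem isAlgebraic_of_rel {K : Type} [Field K] [Algebra ℂ K] (τ : K) (B : Subalgebra ℂ K)
    (hτB : τ ∈ B) (x : K) (Q : ℂ[X][X]) (hQm : Q.Monic)
    (hQ : Q.eval₂ ((aeval τ : ℂ[X] →ₐ[ℂ] K) : ℂ[X] →+* K) x = 0) : IsAlgebraic B x := by
  refine IsIntegral.isAlgebraic ?_
  refine ⟨Q.map ((aeval (⟨τ, hτB⟩ : B) : ℂ[X] →ₐ[ℂ] B) : ℂ[X] →+* B), hQm.map _, ?_⟩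
  rw [Polynomial.eval₂_map]
  have h2 : (algebraMap B K).comp ((aeval (⟨τ, hτB⟩ : B) : ℂ[X] →ₐ[ℂ] B) : ℂ[X] →+* B) =
      ((aeval τ : ℂ[X] →ₐ[ℂ] K) : ℂ[X] →+* K) := by
    refine Polynomial.ringHom_ext (fun c => ?_) ?_
    · simp only [RingHom.comp_apply, RingHom.coe_coe, aeval_C]; rfl
    · simp only [RingHom.comp_apply, RingHom.coe_coe, aeval_X]; rfl
  rw [h2]; exact hQ

theorem isAlgebraic_top {F : Type} [Field F] [Algebra ℂ F] (τ : F) (T : Set F) (hmem : τ ∈ T)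
    (halg : ∀ x ∈ T, ∃ Q : ℂ[X][X], Q.Monic ∧
      Q.eval₂ ((aeval τ : ℂ[X] →ₐ[ℂ] F) : ℂ[X] →+* F) x = 0) :
    ∀ x : IntermediateField.adjoin ℂ T, IsAlgebraic (Algebra.adjoin ℂ
      {(⟨τ, IntermediateField.subset_adjoin _ _ hmem⟩ : IntermediateField.adjoin ℂ T)}) x := by
  rintro ⟨x, hx⟩
  refine IntermediateField.adjoin_induction (F := ℂ) (s := T)
    (p := fun x hx => IsAlgebraic (Algebra.adjoin ℂ
      {(⟨τ, IntermediateField.subset_adjoin _ _ hmem⟩ : IntermediateField.adjoin ℂ T)})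
      (⟨x, hx⟩ : IntermediateField.adjoin ℂ T)) ?_ ?_ ?_ ?_ ?_ hx
  · intro x hx
    obtain ⟨Q, hQm, hQ⟩ := halg x hx
    refine isAlgebraic_of_rel _ _ (Algebra.self_mem_adjoin_singleton ℂ _) _ Q hQm ?_
    apply Subtype.val_injective
    have h3 := Polynomial.hom_eval₂ Q
      ((aeval (⟨τ, IntermediateField.subset_adjoin _ _ hmem⟩ : IntermediateField.adjoin ℂ T) :
        ℂ[X] →ₐ[ℂ] IntermediateField.adjoin ℂ T) : ℂ[X] →+* IntermediateField.adjoin ℂ T)
      ((IntermediateField.adjoin ℂ T).val : IntermediateField.adjoin ℂ T →+* F)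
      (⟨x, IntermediateField.subset_adjoin _ _ hx⟩ : IntermediateField.adjoin ℂ T)
    have h2 : ((IntermediateField.adjoin ℂ T).val : IntermediateField.adjoin ℂ T →+* F).comp
        ((aeval (⟨τ, IntermediateField.subset_adjoin _ _ hmem⟩ : IntermediateField.adjoin ℂ T) :
        ℂ[X] →ₐ[ℂ] IntermediateField.adjoin ℂ T) : ℂ[X] →+* IntermediateField.adjoin ℂ T) =
        ((aeval τ : ℂ[X] →ₐ[ℂ] F) : ℂ[X] →+* F) := by
      refine Polynomial.ringHom_ext (fun c => ?_) ?_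
      · simp only [RingHom.comp_apply, RingHom.coe_coe, aeval_C]; rfl
      · simp only [RingHom.comp_apply, RingHom.coe_coe, aeval_X]; rfl
    rw [h2] at h3
    exact h3.trans hQ
  · intro c
    exact isAlgebraic_algebraMap (A := IntermediateField.adjoin ℂ T)
      (⟨algebraMap ℂ (IntermediateField.adjoin ℂ T) c, Subalgebra.algebraMap_mem _ c⟩ :
        Algebra.adjoin ℂ {(⟨τ, IntermediateField.subset_adjoin _ _ hmem⟩ :
          IntermediateField.adjoin ℂ T)})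
  · intro x y hx hy h1 h2
    exact h1.add h2
  · intro x hx h1
    exact h1.inv
  · intro x y hx hy h1 h2
    exact h1.mul h2

theorem isFF_of_rel {F : Type} [Field F] [Algebra ℂ F] (τ : F) (hτ : Transcendental ℂ τ)
    (T : Set F) (hT : T.Finite) (hmem : τ ∈ T)
    (halg : ∀ x ∈ T, ∃ Q : ℂ[X][X], Q.Monic ∧
      Q.eval₂ ((aeval τ : ℂ[X] →ₐ[ℂ] F) : ℂ[X] →+* F) x = 0) :
    IsFF ℂ (IntermediateField.adjoin ℂ T) := by
  have h0 := isAlgebraic_top τ T hmem halg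
  have hB : Algebra.IsAlgebraic (Algebra.adjoin ℂ
      {(⟨τ, IntermediateField.subset_adjoin _ _ hmem⟩ : IntermediateField.adjoin ℂ T)})
      (IntermediateField.adjoin ℂ T) := ⟨h0⟩
  refine ⟨?_, le_antisymm ?_ ?_⟩
  · rw [IntermediateField.essFiniteType_iff]
    exact IntermediateField.fg_adjoin_of_finite hT
  · have h1 := Algebra.IsAlgebraic.trdeg_le_cardinalMk ℂ
      ({(⟨τ, IntermediateField.subset_adjoin _ _ hmem⟩ : IntermediateField.adjoin ℂ T)} : Set _)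
    simpa using h1
  · have h2 : Transcendental ℂ
        (⟨τ, IntermediateField.subset_adjoin _ _ hmem⟩ : IntermediateField.adjoin ℂ T) :=
      fun h => hτ (h.algHom (IntermediateField.adjoin ℂ T).val)
    have h3 : AlgebraicIndependent ℂ (fun _ : Unit =>
        (⟨τ, IntermediateField.subset_adjoin _ _ hmem⟩ : IntermediateField.adjoin ℂ T)) := by
      rw [algebraicIndependent_unique_type_iff]
      exact h2
    have h4 := h3.lift_cardinalMk_le_trdeg
    simpa using h4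

theorem germ_bound {N s : ℕ} (u : Fin N → ℂ → ℂ) (hu : ∀ i, AnalyticAt ℂ (u i) 0)
    (hne : ∀ i j, i ≠ j → ¬ ∀ᶠ t in 𝓝 (0 : ℂ), u i t = u j t)
    (hnc : ∀ i c, ¬ ∀ᶠ t in 𝓝 (0 : ℂ), u i t = c) (h0 : ∀ i, u i 0 ≠ 0) (h1 : ∀ i, u i 0 ≠ 1)
    (halg : ∀ i, ∃ Q : ℂ[X][X], Q.Monic ∧
      ∀ᶠ t in 𝓝 (0 : ℂ), (Q.map (evalRingHom t)).eval (u i t) = 0)
    (hrank : ∀ w : Fin (s + 1) → (ℂ → ℂ), (∀ l, ∃ i, w l = u i ∨ w l = fun t => 1 - u i t) →
      ∃ a : Fin (s + 1) → ℤ, a ≠ 0 ∧ ∃ c, ∀ᶠ t in 𝓝 (0 : ℂ), ∏ l, w l t ^ a l = c) :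
    N ≤ (6 * s + 1) ^ (2 * s) := by
  classical
  obtain ⟨F, _, _, ph, hph⟩ := exists_field
  let U : Fin N → A0 := fun i => ⟨u i, hu i⟩
  let T : Set F := insert (ph idA) (range fun i => ph (U i))
  have hTfin : T.Finite := (finite_range _).insert _
  have hτT : ph idA ∈ T := mem_insert _ _
  have hUT : ∀ i, ph (U i) ∈ T := fun i => mem_insert_of_mem _ (mem_range_self i)
  have hFF : IsFF ℂ (IntermediateField.adjoin ℂ T) := by
    refine isFF_of_rel (ph idA) (tau_transcendental hph) T hTfin hτT fun x hx => ?_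
    rcases mem_insert_iff.1 hx with h | ⟨i, h⟩
    · refine ⟨X - C X, monic_X_sub_C _, ?_⟩
      rw [h]; simp
    · obtain ⟨Q, hQm, hQ⟩ := halg i
      exact ⟨Q, hQm, by rw [← h]; exact relation hph (U i) Q hQ⟩
  let V : Fin N → IntermediateField.adjoin ℂ T := fun i =>
    ⟨ph (U i), IntermediateField.subset_adjoin _ _ (hUT i)⟩
  have hVinj : Function.Injective V := by
    intro i j hij
    by_contra hne'
    exact hne i j hne' ((ph_eq hph).1 (congrArg Subtype.val hij))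
  have hcard : (Finset.univ.image V).card = N := by
    rw [Finset.card_image_of_injective _ hVinj, Finset.card_univ, Fintype.card_fin]
  rw [← hcard]
  refine unit_bound s (Finset.univ.image V) ?_ ?_
  · intro f hf
    obtain ⟨i, -, rfl⟩ := Finset.mem_image.1 hf
    intro halg'
    obtain ⟨c, hc⟩ := const_of_alg halg'
    have h2 : ph (U i) = ph (algebraMap ℂ A0 c) := by
      rw [AlgHom.commutes]
      exact congrArg Subtype.val hc
    exact hnc i c ((ph_eq hph).1 h2)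
  · intro x hx
    have hx' : ∀ l, ∃ i, x l = V i ∨ x l = 1 - V i := by
      intro l
      obtain ⟨f, hf, h⟩ := hx l
      obtain ⟨i, -, rfl⟩ := Finset.mem_image.1 hf
      exact ⟨i, h⟩
    -- functions representing `x l`
    have hw : ∀ l, ∃ w : A0, (∃ i, w.1 = u i ∨ w.1 = fun t => 1 - u i t) ∧ w.1 0 ≠ 0 ∧
        ph w = (x l : F) := by
      intro l
      obtain ⟨i, h | h⟩ := hx' l
      · exact ⟨U i, ⟨i, Or.inl rfl⟩, h0 i, by rw [h]⟩
      · refine ⟨1 - U i, ⟨i, Or.inr rfl⟩, ?_, ?_⟩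
        · change 1 - u i 0 ≠ 0
          exact sub_ne_zero.2 (h1 i).symm
        · rw [h, map_sub, map_one]; rfl
    choose w hw1 hw2 hw3 using hw
    obtain ⟨a, ha, c, hc⟩ := hrank (fun l => (w l).1) hw1
    refine ⟨a, ha, ?_⟩
    choose w' hw'1 hw'2 using fun l => exists_zpow hph (w l) (hw2 l) (a l)
    have h2 : ph (∏ l, w' l) = ph (algebraMap ℂ A0 c) := by
      rw [ph_eq hph]
      filter_upwards [hc] with t ht
      have h3 : (∏ l, w' l : A0).1 t = ∏ l, (w' l).1 t := by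
        rw [← evA_apply, map_prod]; rfl
      rw [h3]
      simp only [hw'1]
      exact ht
    rw [map_prod, AlgHom.commutes] at h2
    simp only [hw'2, hw3] at h2
    have h3 : ∏ l, x l ^ a l = algebraMap ℂ (IntermediateField.adjoin ℂ T) c := by
      apply Subtype.val_injective
      have h4 := map_prod ((IntermediateField.adjoin ℂ T).val) (fun l => x l ^ a l) Finset.univ
      simp only [map_zpow₀] at h4
      exact h4.trans h2
    rw [h3]
    exact isAlgebraic_algebraMap c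

end Pool.Agent.J4.H11.QH
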