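import Pool.Agent.J4.H11.QH.Curve
import Pool.Agent.J4.H11.QH.Germ
import Pool.Agent.J4.H71.Gorin.Lift

/-! The number of holomorphic maps to the thrice punctured sphere, in terms of the rank. -/

set_option autoImplicit false
set_option maxHeartbeats 4000000
set_option synthInstance.maxHeartbeats 400000

open Metric Set Topology Filter H113G

namespace Pool.Agent.J4.H11.QH

/-- a common nonzero of finitely many functions -/
theorem exists_common_ne {k : ℕ} {B : Set (Fin k → ℂ)} (hB : IsOpen B) (hne : B.Nonempty)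
    {ι : Type*} (S : Finset ι) (H : ι → (Fin k → ℂ) → ℂ) (hH : ∀ a ∈ S, ContinuousOn (H a) B)
    (h : ∀ a ∈ S, ∀ z ∈ B, ¬ ∀ᶠ x in 𝓝 z, H a x = 0) :
    ∃ V : Set (Fin k → ℂ), IsOpen V ∧ V.Nonempty ∧ V ⊆ B ∧ ∀ z ∈ V, ∀ a ∈ S, H a z ≠ 0 := by
  classical
  induction S using Finset.induction_on with
  | empty => exact ⟨B, hB, hne, Subset.rfl, fun z _ a ha => absurd ha (Finset.notMem_empty a)⟩
  | insert a S ha ih =>
    obtain ⟨V, hV, ⟨z, hz⟩, hVB, hVS⟩ := ih (fun b hb => hH b (Finset.mem_insert_of_mem hb))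
      (fun b hb => h b (Finset.mem_insert_of_mem hb))
    obtain ⟨x, hx, hxne⟩ : ∃ x ∈ V, H a x ≠ 0 := by
      by_contra hcon
      push Not at hcon
      refine h a (Finset.mem_insert_self _ _) z (hVB hz) ?_
      filter_upwards [hV.mem_nhds hz] with x hx
      exact hcon x hx
    refine ⟨V ∩ H a ⁻¹' {0}ᶜ,
      ((hH a (Finset.mem_insert_self _ _)).mono hVB).isOpen_inter_preimage hV
        isOpen_compl_singleton, ⟨x, hx, hxne⟩, inter_subset_left.trans hVB, ?_⟩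
    intro y hy b hb
    rcases Finset.mem_insert.1 hb with rfl | hb
    · exact hy.2
    · exact hVS y hy.1 b hb

variable {m k : ℕ} {Y : Set (Fin m → ℂ)} {pr : (Fin m → ℂ) → (Fin k → ℂ)}
  {δ : MvPolynomial (Fin k) ℂ} {e : ℕ}

theorem e_pos (hc : Cov Y pr δ e) : 0 < e := by
  rcases Nat.eq_zero_or_pos e with h | h
  · subst h
    exfalso
    obtain ⟨y, hy, hyδ⟩ := hc.dominant δ (by
      rintro rfl
      exact hc.base (map_zero _))
    obtain ⟨r, hr, s, -, hs⟩ := hc.sections _ hyδ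
    have h1 : y ∈ {y' | y' ∈ Y ∧ pr y' = pr y} := ⟨hy, rfl⟩
    rw [(hs _ (mem_ball_self hr)).2.2] at h1
    obtain ⟨i, -⟩ := h1
    exact i.elim0
  · exact h

/-- the section over the origin, with the identity theorem -/
theorem exists_section (hc : Cov Y pr δ e) (hY : HasCharts Y) (hconn : IsPreconnected Y) :
    ∃ (r : ℝ) (σ : (Fin k → ℂ) → (Fin m → ℂ)), 0 < r ∧ DifferentiableOn ℂ σ (ball 0 r) ∧
      (∀ z ∈ ball (0 : Fin k → ℂ) r, σ z ∈ Y ∧ pr (σ z) = z ∧ MvPolynomial.eval z δ ≠ 0) ∧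
      ∀ u : (Fin m → ℂ) → ℂ, HolOn Y u → ∀ z ∈ ball (0 : Fin k → ℂ) r,
        (∀ᶠ x in 𝓝 z, u (σ x) = 0) → ∀ y ∈ Y, u y = 0 := by
  obtain ⟨r, hr, s, hsd, hs⟩ := hc.sections 0 hc.base
  let i₀ : Fin e := ⟨0, e_pos hc⟩
  have hmem : ∀ i, ∀ z ∈ ball (0 : Fin k → ℂ) r, s i z ∈ Y ∧ pr (s i z) = z := by
    intro i z hz
    have : s i z ∈ {y | y ∈ Y ∧ pr y = z} := by
      rw [(hs z hz).2.2]; exact mem_range_self i
    exact this
  refine ⟨r, s i₀, hr, hsd i₀, fun z hz => ⟨(hmem i₀ z hz).1, (hmem i₀ z hz).2, (hs z hz).1⟩, ?_⟩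
  intro u hu z hz h0
  refine eq_zero_of_eventually hY hconn hu (hmem i₀ z hz).1 ?_
  have hprc : ContinuousAt pr (s i₀ z) := (hc.diff _).continuousAt
  have hprz : pr (s i₀ z) = z := (hmem i₀ z hz).2
  have h1 : ∀ᶠ y in 𝓝 (s i₀ z), pr y ∈ ball (0 : Fin k → ℂ) r := by
    refine hprc.eventually ?_
    rw [hprz]; exact isOpen_ball.mem_nhds hz
  have h2 : ∀ᶠ y in 𝓝 (s i₀ z), u (s i₀ (pr y)) = 0 := by
    have h0' : ∀ᶠ x in 𝓝 (pr (s i₀ z)), u (s i₀ x) = 0 := by rw [hprz]; exact h0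
    exact hprc.eventually h0'
  have h3 : ∀ j, j ≠ i₀ → ∀ᶠ y in 𝓝 (s i₀ z), s j (pr y) ≠ y := by
    intro j hj
    have hsj : ContinuousAt (s j) z :=
      ((hsd j).differentiableAt (isOpen_ball.mem_nhds hz)).continuousAt
    have h4 : ContinuousAt (fun y => s j (pr y)) (s i₀ z) := by
      refine ContinuousAt.comp (g := s j) ?_ hprc
      rw [hprz]; exact hsj
    have h5 : s j (pr (s i₀ z)) ≠ s i₀ z := by
      rw [hprz]
      exact fun h => hj ((hs z hz).2.1 h)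
    have h6 := (h4.sub continuousAt_id).eventually_ne
      (by simpa [sub_eq_zero] using h5 : (fun y => s j (pr y)) (s i₀ z) - id (s i₀ z) ≠ 0)
    filter_upwards [h6] with y hy h7
    exact hy (sub_eq_zero.2 h7)
  have h4 : ∀ᶠ y in 𝓝 (s i₀ z), ∀ j, j ≠ i₀ → s j (pr y) ≠ y :=
    eventually_all.2 fun j => by
      by_cases hj : j = i₀
      · exact Eventually.of_forall fun y h => absurd hj h
      · filter_upwards [h3 j hj] with y hy _
        exact hy
  filter_upwards [mem_nhdsWithin_of_mem_nhds h1, mem_nhdsWithin_of_mem_nhds h2,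
    mem_nhdsWithin_of_mem_nhds h4, self_mem_nhdsWithin] with y hy1 hy2 hy3 hyY
  have h5 : y ∈ {y' | y' ∈ Y ∧ pr y' = pr y} := ⟨hyY, rfl⟩
  rw [(hs _ hy1).2.2] at h5
  obtain ⟨j, hj⟩ := h5
  have hji : j = i₀ := by
    by_contra hne
    exact hy3 j hne hj
  subst hji
  have hj' : s i₀ (pr y) = y := hj
  rw [hj'] at hy2
  exact hy2

theorem count_bound (hc : Cov Y pr δ e) (hY : HasCharts Y) (hconn : IsPreconnected Y) {s : ℕ}
    (hs : FiniteRank Y s) {N : ℕ} (f : Fin N → (Fin m → ℂ) → ℂ) (hf : ∀ i, HolOn Y (f i))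
    (h0 : ∀ i, ∀ y ∈ Y, f i y ≠ 0) (h1 : ∀ i, ∀ y ∈ Y, f i y ≠ 1)
    (hnc : ∀ i, ∃ a ∈ Y, ∃ b ∈ Y, f i a ≠ f i b)
    (hdist : ∀ i j, i ≠ j → ∃ y ∈ Y, f i y ≠ f j y) : N ≤ (6 * s + 1) ^ (2 * s) := by
  classical
  obtain ⟨r, σ, hr, hσd, hσ, hid⟩ := exists_section hc hY hconn
  have hb0 : (0 : Fin k → ℂ) ∈ ball (0 : Fin k → ℂ) r := mem_ball_self hr
  have hFd : ∀ i, DifferentiableOn ℂ (fun z => f i (σ z)) (ball 0 r) := fun i =>
    holOn_comp (hf i) isOpen_ball hσd fun z hz => (hσ z hz).1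
  -- a generic direction
  let H : Fin N × Fin N → (Fin k → ℂ) → ℂ := fun a z =>
    if a.1 = a.2 then f a.1 (σ z) - f a.1 (σ 0) else f a.1 (σ z) - f a.2 (σ z)
  obtain ⟨V, hVo, ⟨v, hv⟩, hVB, hVH⟩ := exists_common_ne (B := ball (0 : Fin k → ℂ) r)
    isOpen_ball ⟨0, hb0⟩ Finset.univ H (by
      rintro ⟨i, j⟩ -
      by_cases hij : i = j
      · simp only [H, hij, if_true]
        exact (hFd j).continuousOn.sub continuousOn_const
      · simp only [H, hij, if_false]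
        exact (hFd i).continuousOn.sub (hFd j).continuousOn) (by
      rintro ⟨i, j⟩ - z hz hev
      by_cases hij : i = j
      · simp only [H, hij, if_true] at hev
        have h2 := hid (fun y => f j y - f j (σ 0)) (holOn_sub (hf j) (holOn_const _)) z hz hev
        obtain ⟨a, ha, b, hb, hab⟩ := hnc j
        exact hab ((sub_eq_zero.1 (h2 a ha)).trans (sub_eq_zero.1 (h2 b hb)).symm)
      · simp only [H, hij, if_false] at hev
        have h2 := hid (fun y => f i y - f j y) (holOn_sub (hf i) (hf j)) z hz hev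
        obtain ⟨y, hy, hyne⟩ := hdist i j hij
        exact hyne (sub_eq_zero.1 (h2 y hy)))
  have hvB := hVB hv
  -- the line
  let U : Set ℂ := {t | t • v ∈ ball (0 : Fin k → ℂ) r}
  have hlin : Continuous (fun t : ℂ => t • v) := continuous_id.smul continuous_const
  have hUo : IsOpen U := isOpen_ball.preimage hlin
  have hU0 : (0 : ℂ) ∈ U := by
    change (0 : ℂ) • v ∈ ball (0 : Fin k → ℂ) r
    rw [zero_smul]; exact hb0
  have hU1 : (1 : ℂ) ∈ U := by
    change (1 : ℂ) • v ∈ ball (0 : Fin k → ℂ) r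
    rw [one_smul]; exact hvB
  have hUc : Convex ℝ U := by
    have h2 : U = (fun t : ℂ => t • v) ⁻¹' ball (0 : Fin k → ℂ) r := rfl
    rw [h2]
    exact (convex_ball (0 : Fin k → ℂ) r).linear_preimage
      ((LinearMap.toSpanSingleton ℂ (Fin k → ℂ) v).restrictScalars ℝ)
  have hUp : IsPreconnected U := hUc.isPreconnected
  let u : Fin N → ℂ → ℂ := fun i t => f i (σ (t • v))
  have hlσ : DifferentiableOn ℂ (fun t : ℂ => σ (t • v)) U :=
    hσd.comp (by fun_prop) fun t ht => ht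
  have hud : ∀ i, DifferentiableOn ℂ (u i) U := fun i =>
    holOn_comp (hf i) hUo hlσ fun t ht => (hσ _ ht).1
  have hua : ∀ i, AnalyticOnNhd ℂ (u i) U := fun i => (hud i).analyticOnNhd hUo
  obtain ⟨c, κ, Λ, hE⟩ := Pool.Agent.J4.H71.Gorin.exists_endLift hc v
  refine germ_bound (s := s) u (fun i => hua i 0 hU0) ?_ ?_ ?_ ?_ ?_ ?_
  · intro i j hij hev
    have h2 := (hua i).eqOn_of_preconnected_of_eventuallyEq (hua j) hUp hU0 hev hU1
    have h3 := hVH v hv (i, j) (Finset.mem_univ _)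
    simp only [H, hij, if_false] at h3
    simp only [u, one_smul] at h2
    exact h3 (sub_eq_zero.2 h2)
  · intro i c hev
    have h2 := (hua i).eqOn_of_preconnected_of_eventuallyEq
      (analyticOnNhd_const (v := c)) hUp hU0 hev
    have h3 := hVH v hv (i, i) (Finset.mem_univ _)
    simp only [H, if_true] at h3
    have h4 := h2 hU1
    have h5 := h2 hU0
    simp only [u, one_smul, zero_smul] at h4 h5
    exact h3 (by rw [h4, h5, sub_self])
  · intro i; exact h0 i _ (hσ _ hU0).1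
  · intro i; exact h1 i _ (hσ _ hU0).1
  · intro i
    obtain ⟨Q, hQm, hQ⟩ := alg_of_growth hc hE (hf i) (Gr_of_omit hE (hf i) (h0 i) (h1 i))
    refine ⟨Q, hQm, ?_⟩
    filter_upwards [hUo.mem_nhds hU0] with t ht
    exact hQ t (hσ _ ht).2.2 _ (hσ _ ht).1 (hσ _ ht).2.1
  · intro w hw
    have hg : ∀ l, ∃ g : (Fin m → ℂ) → ℂ, HolOn Y g ∧ (∀ y ∈ Y, g y ≠ 0) ∧ (∀ y ∈ Y, g y ≠ 1) ∧
        ∀ t, w l t = g (σ (t • v)) := by
      intro l
      obtain ⟨i, h | h⟩ := hw l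
      · exact ⟨f i, hf i, h0 i, h1 i, fun t => by rw [h]⟩
      · refine ⟨fun y => 1 - f i y, holOn_sub (holOn_const _) (hf i), fun y hy h2 => ?_,
          fun y hy h2 => ?_, fun t => by rw [h]⟩
        · exact h1 i y hy (sub_eq_zero.1 h2).symm
        · exact h0 i y hy (by linear_combination -h2)
    choose g hg hg0 hg1 hgw using hg
    obtain ⟨a, ha, hlog⟩ := hs g (fun l => holOn_continuousOn (hg l)) hg0
    refine ⟨a, ha, ∏ l, g l (σ ((0 : ℂ) • v)) ^ a l, ?_⟩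
    have hgr : Gr Λ (fun y => ∏ l, g l y ^ a l) := by
      refine Gr_prod Finset.univ fun l _ => Gr_zpow (Gr_of_omit hE (hg l) (hg0 l) (hg1 l))
        (Gr_of_omit hE (holOn_inv (hg l) (hg0 l)) (fun y hy => inv_ne_zero (hg0 l y hy))
          fun y hy h2 => hg1 l y hy (inv_eq_one.1 h2)) (a l)
    have hhol : HolOn Y (fun y => ∏ l, g l y ^ a l) :=
      holOn_prod Finset.univ fun l _ => holOn_zpow (hg l) (hg0 l) (a l)
    have hcst := const_of_log hc hE hhol hgr hlog hUp (σ := fun t => σ (t • v)) hlσ.continuousOn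
      fun t ht => ⟨(hσ _ ht).1, (hσ _ ht).2.1, (hσ _ ht).2.2⟩
    filter_upwards [hUo.mem_nhds hU0] with t ht
    have h2 := hcst t ht 0 hU0
    simp only [hgw]
    exact h2

end Pool.Agent.J4.H11.QH
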