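import Pool.Agent.J4.H11.QH.Hol
import Pool.Agent.Helper113.Gorin.Schottky
import Pool.Agent.Helper113.Gorin.G_big_picard
import Pool.Agent.Helper113.Gorin.G_end_growth
import Pool.Agent.Helper113.Gorin.G_end_bounded

/-! Growth along the ends of the curve over a line: constancy and algebraicity. -/

set_option autoImplicit false
set_option maxHeartbeats 4000000
set_option synthInstance.maxHeartbeats 400000

open Metric Set Topology Filter H113G

namespace Pool.Agent.J4.H11.QH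

variable {m k : ℕ} {Y : Set (Fin m → ℂ)} {pr : (Fin m → ℂ) → (Fin k → ℂ)}
  {δ : MvPolynomial (Fin k) ℂ} {e : ℕ} {v : Fin k → ℂ} {c : ℝ} {κ : ℕ}
  {Λ : Fin e → ℂ → (Fin m → ℂ)}

/-- growth along the ends -/
def Gr (Λ : Fin e → ℂ → (Fin m → ℂ)) (w : (Fin m → ℂ) → ℂ) : Prop :=
  ∃ (M : ℕ) (C c' : ℝ), ∀ i, ∀ s : ℂ, c' < s.re → ‖w (Λ i s)‖ ≤ C * Real.exp (M * s.re)

theorem Gr_one : Gr Λ (fun _ => (1 : ℂ)) := ⟨0, 1, 0, fun i s _ => by simp⟩

theorem Gr_mul {u w : (Fin m → ℂ) → ℂ} (hu : Gr Λ u) (hw : Gr Λ w) :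
    Gr Λ (fun y => u y * w y) := by
  obtain ⟨M₁, C₁, c₁, h₁⟩ := hu
  obtain ⟨M₂, C₂, c₂, h₂⟩ := hw
  refine ⟨M₁ + M₂, |C₁| * |C₂|, max c₁ c₂, fun i s hs => ?_⟩
  rw [max_lt_iff] at hs
  have e1 := h₁ i s hs.1
  have e2 := h₂ i s hs.2
  have e3 : ‖u (Λ i s)‖ ≤ |C₁| * Real.exp (M₁ * s.re) :=
    e1.trans (mul_le_mul_of_nonneg_right (le_abs_self _) (Real.exp_pos _).le)
  have e4 : ‖w (Λ i s)‖ ≤ |C₂| * Real.exp (M₂ * s.re) :=
    e2.trans (mul_le_mul_of_nonneg_right (le_abs_self _) (Real.exp_pos _).le)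
  have e5 : Real.exp (((M₁ + M₂ : ℕ) : ℝ) * s.re) =
      Real.exp (M₁ * s.re) * Real.exp (M₂ * s.re) := by
    rw [← Real.exp_add]; push_cast; ring_nf
  rw [norm_mul, e5]
  calc ‖u (Λ i s)‖ * ‖w (Λ i s)‖ ≤ (|C₁| * Real.exp (M₁ * s.re)) * (|C₂| * Real.exp (M₂ * s.re)) :=
        mul_le_mul e3 e4 (norm_nonneg _) (by positivity)
    _ = _ := by ring

theorem Gr_pow {u : (Fin m → ℂ) → ℂ} (hu : Gr Λ u) (n : ℕ) : Gr Λ (fun y => u y ^ n) := by
  induction n with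
  | zero => simpa using Gr_one (Λ := Λ)
  | succ n ih => simpa only [pow_succ] using Gr_mul ih hu

theorem Gr_prod {ι : Type*} (s : Finset ι) {u : ι → (Fin m → ℂ) → ℂ}
    (hu : ∀ i ∈ s, Gr Λ (u i)) : Gr Λ (fun y => ∏ i ∈ s, u i y) := by
  classical
  induction s using Finset.induction_on with
  | empty => simpa using Gr_one (Λ := Λ)
  | insert i s hi ih =>
    simp only [Finset.prod_insert hi]
    exact Gr_mul (hu i (Finset.mem_insert_self _ _))
      (ih fun j hj => hu j (Finset.mem_insert_of_mem hj))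

theorem Gr_zpow {u : (Fin m → ℂ) → ℂ} (hu : Gr Λ u) (hu' : Gr Λ (fun y => (u y)⁻¹)) (n : ℤ) :
    Gr Λ (fun y => u y ^ n) := by
  cases n with
  | ofNat n => simpa using Gr_pow hu n
  | negSucc n =>
    have h1 := Gr_pow hu' (n + 1)
    simpa only [zpow_negSucc, inv_pow] using h1

theorem picard_ends {f : ℂ → ℂ} {r : ℝ} (hr : 0 < r) (hf : DifferentiableOn ℂ f (ball 0 r \ {0}))
    (h0 : ∀ z ∈ ball (0 : ℂ) r \ {0}, f z ≠ 0) (h1 : ∀ z ∈ ball (0 : ℂ) r \ {0}, f z ≠ 1) :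
    ∃ (A : ℕ) (C r' : ℝ), 0 < r' ∧ ∀ z : ℂ, 0 < ‖z‖ → ‖z‖ < r' → ‖f z‖ * ‖z‖ ^ A ≤ C :=
  big_picard schottky_all hr hf h0 h1

theorem mem_of_endLift (hE : EndLift Y pr δ e v c κ Λ) (i : Fin e) {s : ℂ} (hs : c < s.re) :
    Λ i s ∈ Y ∧ pr (Λ i s) = Complex.exp s • v := by
  have : Λ i s ∈ {y | y ∈ Y ∧ pr y = Complex.exp s • v} := by
    rw [hE.fib s hs]; exact mem_range_self i
  exact this

theorem isOpen_half (c : ℝ) : IsOpen {s : ℂ | c < s.re} :=
  isOpen_lt continuous_const Complex.continuous_re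

theorem Gr_of_omit (hE : EndLift Y pr δ e v c κ Λ) {u : (Fin m → ℂ) → ℂ} (hu : HolOn Y u)
    (h0 : ∀ y ∈ Y, u y ≠ 0) (h1 : ∀ y ∈ Y, u y ≠ 1) : Gr Λ u := by
  have h : ∀ i, ∃ A C c' : ℝ, ∀ s : ℂ, c' < s.re → ‖u (Λ i s)‖ ≤ C * Real.exp (A * s.re) := by
    intro i
    refine end_growth (φ := fun s => u (Λ i s)) (c := c) picard_ends hE.pos
      (holOn_comp hu (isOpen_half c) (hE.diff i) fun s hs => (mem_of_endLift hE i hs).1) ?_ ?_ ?_
    · intro s hs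
      simp only [hE.per i s hs]
    · intro s hs; exact h0 _ (mem_of_endLift hE i hs).1
    · intro s hs; exact h1 _ (mem_of_endLift hE i hs).1
  choose A C c' h using h
  obtain ⟨M, hM⟩ := exists_nat_ge (∑ i, |A i|)
  refine ⟨M, ∑ i, |C i|, ∑ i, |c' i|, fun i s hs => ?_⟩
  have e1 : |c' i| ≤ ∑ i, |c' i| :=
    Finset.single_le_sum (f := fun i => |c' i|) (fun j _ => abs_nonneg _) (Finset.mem_univ i)
  have e2 : |C i| ≤ ∑ i, |C i| :=
    Finset.single_le_sum (f := fun i => |C i|) (fun j _ => abs_nonneg _) (Finset.mem_univ i)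
  have e3 : |A i| ≤ ∑ i, |A i| :=
    Finset.single_le_sum (f := fun i => |A i|) (fun j _ => abs_nonneg _) (Finset.mem_univ i)
  have hs0 : 0 < s.re := lt_of_le_of_lt (Finset.sum_nonneg fun j _ => abs_nonneg _) hs
  have h2 := h i s (lt_of_le_of_lt ((le_abs_self _).trans e1) hs)
  refine h2.trans ?_
  refine (mul_le_mul_of_nonneg_right ((le_abs_self _).trans e2) (Real.exp_pos _).le).trans ?_
  refine mul_le_mul_of_nonneg_left (Real.exp_le_exp.2 ?_)
    (Finset.sum_nonneg fun j _ => abs_nonneg _)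
  exact mul_le_mul_of_nonneg_right (((le_abs_self _).trans e3).trans hM) hs0.le

theorem growth_all (hc : Cov Y pr δ e) (hE : EndLift Y pr δ e v c κ Λ) {w : (Fin m → ℂ) → ℂ}
    (hw : ContinuousOn w Y) {M : ℕ} {C c' : ℝ}
    (h : ∀ i, ∀ s : ℂ, c' < s.re → ‖w (Λ i s)‖ ≤ C * Real.exp (M * s.re)) :
    ∃ C₃ : ℝ, 0 ≤ C₃ ∧ ∀ t : ℂ, ∀ y ∈ Y, pr y = t • v → ‖w y‖ ≤ C₃ * (1 + ‖t‖) ^ M := by
  set R₀ := Real.exp (max c c') with hR₀
  obtain ⟨C₂, hC₂, hb⟩ := bound_compact hc hw (R₀ * ‖v‖)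
  refine ⟨|C| + C₂, by positivity, fun t y hy hyt => ?_⟩
  have h1 : (1 : ℝ) ≤ (1 + ‖t‖) ^ M := one_le_pow₀ (by linarith [norm_nonneg t])
  by_cases ht : ‖t‖ ≤ R₀
  · have h2 : ‖w y‖ ≤ C₂ := hb y hy (by rw [hyt, norm_smul]; gcongr)
    nlinarith [abs_nonneg C]
  · push Not at ht
    have ht0 : 0 < ‖t‖ := (Real.exp_pos _).trans ht
    have htne : t ≠ 0 := norm_pos_iff.1 ht0
    set s := Complex.log t with hs
    have hexp : Complex.exp s = t := Complex.exp_log htne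
    have hre : s.re = Real.log ‖t‖ := Complex.log_re t
    have hlt : max c c' < s.re := by
      rw [hre, Real.lt_log_iff_exp_lt ht0]; exact ht
    rw [max_lt_iff] at hlt
    have h3 : y ∈ {y | y ∈ Y ∧ pr y = Complex.exp s • v} := ⟨hy, by rw [hexp]; exact hyt⟩
    rw [hE.fib s hlt.1] at h3
    obtain ⟨i, hi⟩ := h3
    have h4 := h i s hlt.2
    have h5 : Real.exp (M * s.re) = ‖t‖ ^ M := by
      rw [Real.exp_nat_mul, hre, Real.exp_log ht0]
    rw [h5] at h4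
    rw [← hi]
    refine h4.trans ?_
    have h6 : ‖t‖ ^ M ≤ (1 + ‖t‖) ^ M := pow_le_pow_left₀ (norm_nonneg _) (by linarith) M
    have h7 : C * ‖t‖ ^ M ≤ |C| * (1 + ‖t‖) ^ M :=
      mul_le_mul (le_abs_self _) h6 (by positivity) (abs_nonneg _)
    nlinarith

/-- the fibre over a good point of the line -/
theorem exists_enum (hc : Cov Y pr δ e) {z : Fin k → ℂ} (hz : MvPolynomial.eval z δ ≠ 0) :
    ∃ f : Fin e → (Fin m → ℂ), Function.Injective f ∧ fib Y pr z = range f := by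
  obtain ⟨r, hr, s, -, hs⟩ := hc.sections z hz
  exact ⟨fun i => s i z, (hs z (mem_ball_self hr)).2.1, (hs z (mem_ball_self hr)).2.2⟩

open Polynomial in
theorem PW_root (hc : Cov Y pr δ e) (w : (Fin m → ℂ) → ℂ) {t : ℂ}
    (ht : MvPolynomial.eval (t • v) δ ≠ 0) {y : Fin m → ℂ} (hy : y ∈ Y) (hyt : pr y = t • v) :
    (PW Y pr v w t).eval (w y) = 0 := by
  obtain ⟨f, hf, hr⟩ := exists_enum hc ht
  rw [PW_eq w t f hf hr, Polynomial.eval_prod]
  have : y ∈ fib Y pr (t • v) := ⟨hy, hyt⟩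
  rw [hr] at this
  obtain ⟨i, hi⟩ := this
  refine Finset.prod_eq_zero (Finset.mem_univ i) ?_
  rw [hi]; simp

open Polynomial in
theorem PW_monic (hc : Cov Y pr δ e) (w : (Fin m → ℂ) → ℂ) {t : ℂ}
    (ht : MvPolynomial.eval (t • v) δ ≠ 0) :
    (PW Y pr v w t).Monic ∧ (PW Y pr v w t).natDegree = e := by
  obtain ⟨f, hf, hr⟩ := exists_enum hc ht
  rw [PW_eq w t f hf hr]
  exact ⟨monic_prod_of_monic _ _ fun i _ => monic_X_sub_C _, by
    rw [natDegree_prod_of_monic _ _ fun i _ => monic_X_sub_C _]; simp⟩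

open Polynomial in
theorem PW_bound (hc : Cov Y pr δ e) (w : (Fin m → ℂ) → ℂ) {t : ℂ}
    (ht : MvPolynomial.eval (t • v) δ ≠ 0) {M : ℕ} {C₃ : ℝ} (hC₃ : 0 ≤ C₃)
    (h : ∀ t : ℂ, ∀ y ∈ Y, pr y = t • v → ‖w y‖ ≤ C₃ * (1 + ‖t‖) ^ M) (n : ℕ) :
    ‖(PW Y pr v w t).coeff n‖ ≤ (1 + C₃) ^ e * (1 + ‖t‖) ^ (M * e) := by
  obtain ⟨f, hf, hr⟩ := exists_enum hc ht
  have hmem : ∀ i, f i ∈ fib Y pr (t • v) := fun i => hr ▸ mem_range_self i
  rw [PW_eq w t f hf hr]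
  refine (norm_coeff_prod_le Finset.univ (fun i => w (f i)) (C₃ * (1 + ‖t‖) ^ M) (by positivity)
    (fun i _ => h t _ (hmem i).1 (hmem i).2) n).trans ?_
  rw [Finset.card_univ, Fintype.card_fin, pow_mul, ← mul_pow]
  refine pow_le_pow_left₀ (by positivity) ?_ e
  have h1 : (1 : ℝ) ≤ (1 + ‖t‖) ^ M := one_le_pow₀ (by linarith [norm_nonneg t])
  nlinarith

/-- a nowhere zero holomorphic function of moderate growth with a continuous logarithm is constant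
along the sections of the line -/
theorem const_of_log (hc : Cov Y pr δ e) (hE : EndLift Y pr δ e v c κ Λ) {w : (Fin m → ℂ) → ℂ}
    (hw : HolOn Y w) (hgr : Gr Λ w) (hlog : HasLog Y w) {U : Set ℂ} (hU : IsPreconnected U)
    {σ : ℂ → (Fin m → ℂ)} (hσ : ContinuousOn σ U)
    (hσY : ∀ t ∈ U, σ t ∈ Y ∧ pr (σ t) = t • v ∧ MvPolynomial.eval (t • v) δ ≠ 0) :
    ∀ t ∈ U, ∀ t' ∈ U, w (σ t) = w (σ t') := by
  classical
  obtain ⟨L, hL, hLe⟩ := hlog
  have hw0 : ∀ y ∈ Y, w y ≠ 0 := fun y hy => by rw [← hLe y hy]; exact Complex.exp_ne_zero _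
  obtain ⟨M, C, c', hM⟩ := hgr
  have hb : ∀ i, ∃ C c' : ℝ, ∀ s : ℂ, c' < s.re → ‖w (Λ i s)‖ ≤ C := by
    intro i
    refine end_bounded (φ := fun s => w (Λ i s)) (L := fun s => L (Λ i s)) (c := c) hE.pos
      (holOn_comp hw (isOpen_half c) (hE.diff i) fun s hs => (mem_of_endLift hE i hs).1)
      (fun s hs => hw0 _ (mem_of_endLift hE i hs).1) ⟨M, C, c', fun s hs => hM i s hs⟩ ?_ ?_ ?_
    · exact hL.comp (hE.diff i).continuousOn fun s hs => (mem_of_endLift hE i hs).1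
    · intro s hs; exact hLe _ (mem_of_endLift hE i hs).1
    · intro s hs
      simp only [hE.per i s hs]
  choose C' c'' hb using hb
  have hb' : ∀ i, ∀ s : ℂ, (∑ i, |c'' i|) < s.re → ‖w (Λ i s)‖ ≤
      (∑ i, |C' i|) * Real.exp ((0 : ℕ) * s.re) := by
    intro i s hs
    have e1 : |c'' i| ≤ ∑ i, |c'' i| :=
      Finset.single_le_sum (f := fun i => |c'' i|) (fun j _ => abs_nonneg _) (Finset.mem_univ i)
    have e2 : |C' i| ≤ ∑ i, |C' i| :=
      Finset.single_le_sum (f := fun i => |C' i|) (fun j _ => abs_nonneg _) (Finset.mem_univ i)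
    have h2 := hb i s (lt_of_le_of_lt ((le_abs_self _).trans e1) hs)
    simpa using h2.trans ((le_abs_self _).trans e2)
  obtain ⟨C₃, hC₃, h3⟩ := growth_all hc hE (holOn_continuousOn hw) hb'
  obtain ⟨Z, hZ⟩ := exists_bad hc v
  have hZ' : ∀ t, t ∉ Z → MvPolynomial.eval (t • v) δ ≠ 0 := fun t ht h => ht ((hZ t).2 h)
  have hconst : ∀ t ∉ Z, ∀ t' ∉ Z, PW Y pr v w t = PW Y pr v w t' := by
    intro t ht t' ht'
    ext n
    refine const_of_punctured Z (fun t => (PW Y pr v w t).coeff n)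
      (fun t ht => PW_diff hc v hw t (hZ' t ht) n) ((1 + C₃) ^ e) (fun t ht => ?_) t ht t' ht'
    have := PW_bound hc w (hZ' t ht) hC₃ h3 n
    simpa using this
  intro t ht t' ht'
  set P := PW Y pr v w t with hP
  have hPm : P.Monic := (PW_monic hc w (hσY t ht).2.2).1
  have hfin : ((P.roots.toFinset : Finset ℂ) : Set ℂ).Finite := P.roots.toFinset.finite_toSet
  refine hU.constant_of_mapsTo (T := ((P.roots.toFinset : Finset ℂ) : Set ℂ))
    (f := fun t => w (σ t)) hfin.isDiscrete ?_ ?_ ht ht'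
  · exact (holOn_continuousOn hw).comp hσ fun t ht => (hσY t ht).1
  · intro x hx
    obtain ⟨h1, h2, h3⟩ := hσY x hx
    simp only [Finset.mem_coe, Multiset.mem_toFinset]
    rw [Polynomial.mem_roots hPm.ne_zero, Polynomial.IsRoot, hP,
      hconst t (fun h => (hσY t ht).2.2 ((hZ t).1 h)) x (fun h => h3 ((hZ x).1 h))]
    exact PW_root hc w h3 h1 h2

open Polynomial in
/-- a holomorphic function of moderate growth is algebraic along the line -/
theorem alg_of_growth (hc : Cov Y pr δ e) (hE : EndLift Y pr δ e v c κ Λ) {w : (Fin m → ℂ) → ℂ}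
    (hw : HolOn Y w) (hgr : Gr Λ w) :
    ∃ Q : ℂ[X][X], Q.Monic ∧ ∀ t : ℂ, MvPolynomial.eval (t • v) δ ≠ 0 →
      ∀ y ∈ Y, pr y = t • v → (Q.map (evalRingHom t)).eval (w y) = 0 := by
  classical
  obtain ⟨M, C₀, c', hM⟩ := hgr
  obtain ⟨C₃, hC₃, h3⟩ := growth_all hc hE (holOn_continuousOn hw) hM
  obtain ⟨Z, hZ⟩ := exists_bad hc v
  have hZ' : ∀ t, t ∉ Z → MvPolynomial.eval (t • v) δ ≠ 0 := fun t ht h => ht ((hZ t).2 h)
  have h4 : ∀ n, ∃ p : ℂ[X], ∀ t ∉ Z, (PW Y pr v w t).coeff n = p.eval t := fun n =>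
    poly_of_punctured Z (fun t => (PW Y pr v w t).coeff n)
      (fun t ht => PW_diff hc v hw t (hZ' t ht) n) (M * e) ((1 + C₃) ^ e)
      (fun t ht => PW_bound hc w (hZ' t ht) hC₃ h3 n)
  choose p hp using h4
  refine ⟨X ^ e + ∑ n ∈ Finset.range e, C (p n) * X ^ n, ?_, fun t ht y hy hyt => ?_⟩
  · refine monic_X_pow_add ?_
    rw [degree_lt_iff_coeff_zero]
    intro l hl
    rw [finsetSum_coeff]
    refine Finset.sum_eq_zero fun n hn => ?_
    rw [coeff_C_mul, coeff_X_pow, if_neg, mul_zero]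
    have := Finset.mem_range.1 hn
    omega
  · have htZ : t ∉ Z := fun h => ht ((hZ t).1 h)
    have h5 := PW_root hc w ht hy hyt
    obtain ⟨hm, hd⟩ := PW_monic hc w ht
    rw [Polynomial.eval_eq_sum_range, hd, Finset.sum_range_succ] at h5
    have h6 : (PW Y pr v w t).coeff e = 1 := by
      have := hm.coeff_natDegree
      rwa [hd] at this
    rw [h6, one_mul] at h5
    rw [Polynomial.map_add, Polynomial.map_pow, Polynomial.map_X, Polynomial.map_sum,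
      Polynomial.eval_add, Polynomial.eval_pow, Polynomial.eval_X, Polynomial.eval_finsetSum]
    rw [← h5, add_comm]
    congr 1
    refine Finset.sum_congr rfl fun n _ => ?_
    rw [hp n t htZ]
    simp

end Pool.Agent.J4.H11.QH
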