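import Pool.Agent.H564R3.SL.F6

/-! Functions with removable singularities and polynomial growth. -/

set_option autoImplicit false
set_option maxHeartbeats 4000000
set_option synthInstance.maxHeartbeats 400000

open Metric Set Topology Filter

namespace Pool.Agent.J4.H11.QH

theorem poly_of_punctured (Z : Finset ℂ) (f : ℂ → ℂ) (hf : ∀ t ∉ Z, DifferentiableAt ℂ f t)
    (N : ℕ) (C : ℝ) (hC : ∀ t ∉ Z, ‖f t‖ ≤ C * (1 + ‖t‖) ^ N) :
    ∃ p : Polynomial ℂ, ∀ t ∉ Z, f t = p.eval t := by
  classical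
  let g : ℂ → ℂ := fun t => if t ∈ Z then limUnder (𝓝[≠] t) f else f t
  have hgf : ∀ t ∉ Z, g t = f t := fun t ht => by simp only [g, if_neg ht]
  have hZc : IsClosed (Z : Set ℂ) := Z.finite_toSet.isClosed
  have hg : Differentiable ℂ g := by
    intro t
    by_cases ht : t ∈ Z
    · have hZ' : IsClosed ((Z.erase t : Finset ℂ) : Set ℂ) := (Z.erase t).finite_toSet.isClosed
      have hmem : ((Z.erase t : Finset ℂ) : Set ℂ)ᶜ ∈ 𝓝 t :=
        hZ'.isOpen_compl.mem_nhds (by simp)
      obtain ⟨r, hr, hb⟩ := Metric.mem_nhds_iff.1 hmem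
      have hnot : ∀ x ∈ ball t r \ {t}, x ∉ Z := by
        rintro x ⟨hx, hxt⟩ hxZ
        exact hb hx (Finset.mem_coe.2 (Finset.mem_erase.2 ⟨hxt, hxZ⟩))
      have h1 := Complex.differentiableOn_update_limUnder_of_bddAbove (f := f)
        (ball_mem_nhds t hr) (fun x hx => (hf x (hnot x hx)).differentiableWithinAt) (by
          refine ⟨C * (1 + (‖t‖ + r)) ^ N, ?_⟩
          rintro _ ⟨x, hx, rfl⟩
          have hC0 : 0 ≤ C := by
            have h2 := (norm_nonneg _).trans (hC x (hnot x hx))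
            have h3 : 0 < (1 + ‖x‖) ^ N := by positivity
            exact nonneg_of_mul_nonneg_left h2 h3
          refine (hC x (hnot x hx)).trans ?_
          have h4 : ‖x‖ ≤ ‖t‖ + r := by
            have h5 : ‖x - t‖ < r := by simpa [dist_eq_norm] using hx.1
            have h6 : ‖x‖ ≤ ‖x - t‖ + ‖t‖ := by simpa using norm_add_le (x - t) t
            linarith
          gcongr)
      have h2 : g =ᶠ[𝓝 t] Function.update f t (limUnder (𝓝[≠] t) f) := by
        filter_upwards [ball_mem_nhds t hr] with x hx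
        by_cases hxt : x = t
        · subst hxt; simp [g, ht]
        · rw [Function.update_of_ne hxt, hgf x (hnot x ⟨hx, hxt⟩)]
      exact (h1.differentiableAt (ball_mem_nhds t hr)).congr_of_eventuallyEq h2
    · have h2 : g =ᶠ[𝓝 t] f := by
        filter_upwards [hZc.isOpen_compl.mem_nhds ht] with x hx
        exact hgf x hx
      exact (hf t ht).congr_of_eventuallyEq h2
  have hdense : Dense ((Z : Set ℂ)ᶜ) := Z.countable_toSet.dense_compl ℝ
  have hbd : ∀ t, ‖g t‖ ≤ C * (1 + ‖t‖) ^ N := by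
    have hcl : IsClosed {t : ℂ | ‖g t‖ ≤ C * (1 + ‖t‖) ^ N} :=
      isClosed_le hg.continuous.norm (by fun_prop)
    intro t
    have h1 : closure ((Z : Set ℂ)ᶜ) ⊆ {t : ℂ | ‖g t‖ ≤ C * (1 + ‖t‖) ^ N} :=
      closure_minimal (fun x hx => by
        change ‖g x‖ ≤ _
        rw [hgf x hx]; exact hC x hx) hcl
    rw [hdense.closure_eq] at h1
    exact h1 (mem_univ t)
  obtain ⟨p, hp⟩ := Pool.Agent.H564R3.SLF6.poly_of_growth N g hg ⟨C, hbd⟩
  exact ⟨p, fun t ht => by rw [← hgf t ht, hp]⟩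

theorem const_of_punctured (Z : Finset ℂ) (f : ℂ → ℂ) (hf : ∀ t ∉ Z, DifferentiableAt ℂ f t)
    (C : ℝ) (hC : ∀ t ∉ Z, ‖f t‖ ≤ C) : ∀ t ∉ Z, ∀ t' ∉ Z, f t = f t' := by
  obtain ⟨p, hp⟩ := poly_of_punctured Z f hf 0 C (fun t ht => by simpa using hC t ht)
  have hdense : Dense ((Z : Set ℂ)ᶜ) := Z.countable_toSet.dense_compl ℝ
  have hbd : ∀ t, ‖p.eval t‖ ≤ C := by
    have hcl : IsClosed {t : ℂ | ‖p.eval t‖ ≤ C} :=
      isClosed_le p.continuous.norm continuous_const
    intro t
    have h1 : closure ((Z : Set ℂ)ᶜ) ⊆ {t : ℂ | ‖p.eval t‖ ≤ C} :=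
      closure_minimal (fun x hx => by
        change ‖p.eval x‖ ≤ _
        rw [← hp x hx]; exact hC x hx) hcl
    rw [hdense.closure_eq] at h1
    exact h1 (mem_univ t)
  intro t ht t' ht'
  rw [hp t ht, hp t' ht']
  apply p.differentiable.apply_eq_apply_of_bounded
  rw [isBounded_iff_forall_norm_le]
  exact ⟨C, by rintro _ ⟨x, rfl⟩; exact hbd x⟩

open Polynomial in
/-- coefficients of a product of linear factors -/
theorem norm_coeff_prod_le {ι : Type*} (s : Finset ι) (a : ι → ℂ) (B : ℝ) (hB : 0 ≤ B)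
    (ha : ∀ i ∈ s, ‖a i‖ ≤ B) (n : ℕ) :
    ‖(∏ i ∈ s, (X - C (a i))).coeff n‖ ≤ (1 + B) ^ s.card := by
  classical
  induction s using Finset.induction_on generalizing n with
  | empty =>
    rw [Finset.prod_empty, Finset.card_empty, pow_zero, coeff_one]
    split_ifs <;> simp
  | insert i s hi ih =>
    have h1 : ∀ n, ‖(∏ i ∈ s, (X - C (a i))).coeff n‖ ≤ (1 + B) ^ s.card :=
      fun n => ih (fun j hj => ha j (Finset.mem_insert_of_mem hj)) n
    have h2 := ha i (Finset.mem_insert_self _ _)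
    rw [Finset.prod_insert hi, Finset.card_insert_of_notMem hi, sub_mul, coeff_sub, coeff_C_mul,
      pow_succ]
    have h3 : ‖(X * ∏ i ∈ s, (X - C (a i))).coeff n‖ ≤ (1 + B) ^ s.card := by
      cases n with
      | zero => rw [coeff_X_mul_zero, norm_zero]; positivity
      | succ n => rw [coeff_X_mul]; exact h1 n
    have h4 : ‖a i * (∏ i ∈ s, (X - C (a i))).coeff n‖ ≤ B * (1 + B) ^ s.card := by
      rw [norm_mul]
      exact mul_le_mul h2 (h1 n) (norm_nonneg _) hB
    refine (norm_sub_le _ _).trans ?_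
    linarith

open Polynomial in
theorem differentiableAt_coeff_prod {ι : Type*} (s : Finset ι) (a : ι → ℂ → ℂ) (t : ℂ)
    (ha : ∀ i ∈ s, DifferentiableAt ℂ (a i) t) (n : ℕ) :
    DifferentiableAt ℂ (fun t => (∏ i ∈ s, (X - C (a i t))).coeff n) t := by
  classical
  induction s using Finset.induction_on generalizing n with
  | empty => simp
  | insert i s hi ih =>
    have h1 := fun n => ih (fun j hj => ha j (Finset.mem_insert_of_mem hj)) n
    have h2 := ha i (Finset.mem_insert_self _ _)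
    simp only [Finset.prod_insert hi, sub_mul, coeff_sub, coeff_C_mul]
    refine DifferentiableAt.fun_sub ?_ (h2.fun_mul (h1 n))
    cases n with
    | zero => simp only [coeff_X_mul_zero]; exact differentiableAt_const _
    | succ n => simp only [coeff_X_mul]; exact h1 n

end Pool.Agent.J4.H11.QH
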