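import Mathlib

/-! An integral primitive element, with denominators. -/

set_option autoImplicit false
set_option maxHeartbeats 4000000
set_option synthInstance.maxHeartbeats 400000

open Polynomial nonZeroDivisors

namespace Pool.Agent.J4.H11.QH

theorem exists_integer_multiple {S F : Type*} [CommRing S] [IsDomain S] [Field F] [Algebra S F]
    [IsFractionRing S F] (p : F[X]) :
    ∃ (b : S) (q : S[X]), b ≠ 0 ∧ q.map (algebraMap S F) = C (algebraMap S F b) * p := by
  obtain ⟨b, hb, h⟩ := IsLocalization.integerNormalization_spec S⁰ p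
  refine ⟨b, IsLocalization.integerNormalization S⁰ p, nonZeroDivisors.ne_zero hb, ?_⟩
  rw [h, ← Polynomial.smul_eq_C_mul, algebraMap_smul]

theorem exists_primitive {S A : Type*} [CommRing S] [IsDomain S] [IsIntegrallyClosed S]
    [CharZero S] [CommRing A] [IsDomain A] [Algebra S A]
    (hinj : Function.Injective (algebraMap S A)) [Module.Finite S A] {m : ℕ} (x : Fin m → A) :
    ∃ (θ : A) (d c : S) (R : Fin m → S[X]) (a b : S[X]), d ≠ 0 ∧ c ≠ 0 ∧
      (∀ j, algebraMap S A d * x j = aeval θ (R j)) ∧
      a * minpoly S θ + b * derivative (minpoly S θ) = C c := by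
  classical
  have hfs : FaithfulSMul S A := (faithfulSMul_iff_algebraMap_injective _ _).2 hinj
  let Kf := FractionRing S
  let L := FractionRing A
  have hfs2 : FaithfulSMul S L := by
    rw [faithfulSMul_iff_algebraMap_injective, IsScalarTower.algebraMap_eq S A L]
    exact (IsFractionRing.injective A L).comp hinj
  let _ : Algebra Kf L := FractionRing.liftAlgebra S L
  have hst : IsScalarTower S Kf L := inferInstance
  have hint : Algebra.IsIntegral S A := inferInstance
  have halg : Algebra.IsAlgebraic S A := inferInstance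
  have hfin : Module.Finite Kf L := Module.Finite.of_isLocalization S A S⁰
  have hchar : CharZero Kf := inferInstance
  obtain ⟨α, hα⟩ := Field.exists_primitive_element Kf L
  -- `α = θ / s`
  obtain ⟨θ, s, hs, hθ⟩ : ∃ (θ : A) (s : S), s ≠ 0 ∧ algebraMap A L θ = algebraMap S L s * α := by
    obtain ⟨θ, ⟨_, s, hs, rfl⟩, h⟩ := IsLocalization.exists_mk'_eq (Algebra.algebraMapSubmonoid A S⁰) α
    refine ⟨θ, s, nonZeroDivisors.ne_zero hs, ?_⟩
    rw [IsScalarTower.algebraMap_apply S A L, ← h, mul_comm]
    exact (IsLocalization.mk'_spec L θ _).symm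
  set θL : L := algebraMap A L θ with hθL
  have hsL : algebraMap S L s ≠ 0 := by
    rw [map_ne_zero_iff _ (FaithfulSMul.algebraMap_injective S L)]; exact hs
  have htop : IntermediateField.adjoin Kf {θL} = ⊤ := by
    rw [eq_top_iff, ← hα, IntermediateField.adjoin_simple_le_iff]
    have h1 : α = (algebraMap Kf L (algebraMap S Kf s))⁻¹ * θL := by
      rw [← IsScalarTower.algebraMap_apply, hθ, inv_mul_cancel_left₀ hsL]
    rw [h1]
    exact mul_mem (inv_mem ((IntermediateField.adjoin Kf {θL}).algebraMap_mem _))
      (IntermediateField.mem_adjoin_simple_self Kf θL)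
  have hθint : IsIntegral S θ := Algebra.IsIntegral.isIntegral θ
  have hθK : IsIntegral Kf θL := Algebra.IsIntegral.isIntegral θL
  -- the coordinates
  have hx : ∀ j, ∃ (d : S) (R : S[X]), d ≠ 0 ∧ algebraMap S A d * x j = aeval θ R := by
    intro j
    have h1 : algebraMap A L (x j) ∈ IntermediateField.adjoin Kf {θL} := by rw [htop]; trivial
    rw [← IntermediateField.mem_toSubalgebra,
      IntermediateField.adjoin_simple_toSubalgebra_of_isAlgebraic hθK.isAlgebraic,
      Algebra.adjoin_singleton_eq_range_aeval] at h1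
    obtain ⟨p, hp⟩ := h1
    have hp' : aeval θL p = algebraMap A L (x j) := hp
    obtain ⟨d, q, hd, hq⟩ := exists_integer_multiple (S := S) p
    refine ⟨d, q, hd, IsFractionRing.injective A L ?_⟩
    rw [map_mul, ← hp', ← IsScalarTower.algebraMap_apply, ← Polynomial.aeval_algebraMap_apply,
      ← Polynomial.aeval_map_algebraMap Kf θL q, hq, map_mul, aeval_C,
      ← IsScalarTower.algebraMap_apply]
  choose d R hd hR using hx
  -- separability
  have hmin : (minpoly S θ).map (algebraMap S Kf) = minpoly Kf θL :=
    (minpoly.isIntegrallyClosed_eq_field_fractions Kf L hθint).symm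
  have hsep : (minpoly Kf θL).Separable := (minpoly.irreducible hθK).separable
  obtain ⟨a₀, b₀, hab⟩ := hsep
  obtain ⟨ca, a, hca, ha⟩ := exists_integer_multiple (S := S) a₀
  obtain ⟨cb, b, hcb, hb⟩ := exists_integer_multiple (S := S) b₀
  refine ⟨θ, ∏ j, d j, ca * cb, fun j => C (∏ i ∈ Finset.univ.erase j, d i) * R j,
    C cb * a, C ca * b, Finset.prod_ne_zero_iff.2 fun j _ => hd j, mul_ne_zero hca hcb, ?_, ?_⟩
  · intro j
    rw [map_mul, aeval_C, ← hR j, ← Finset.mul_prod_erase _ _ (Finset.mem_univ j), map_mul]
    ring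
  · apply Polynomial.map_injective (algebraMap S Kf) (IsFractionRing.injective S Kf)
    rw [Polynomial.map_add, Polynomial.map_mul, Polynomial.map_mul, Polynomial.map_mul,
      Polynomial.map_mul, ha, hb, ← Polynomial.derivative_map, hmin, Polynomial.map_C,
      Polynomial.map_C, Polynomial.map_C, map_mul, C_mul]
    linear_combination (C (algebraMap S Kf ca) * C (algebraMap S Kf cb)) * hab

end Pool.Agent.J4.H11.QH
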