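import Mathlib

/-! Holomorphic dependence of simple roots on parameters. -/

set_option autoImplicit false
set_option maxHeartbeats 4000000
set_option synthInstance.maxHeartbeats 400000

open Metric Set Topology Filter

namespace Pool.Agent.J4.H11.QH

theorem implicit_root {k : ℕ} (F : (Fin k → ℂ) × ℂ → ℂ) (hF : ContDiff ℂ 1 F)
    (z₀ : Fin k → ℂ) (t₀ : ℂ) (h0 : F (z₀, t₀) = 0) (h1 : deriv (fun t => F (z₀, t)) t₀ ≠ 0) :
    ∃ (r : ℝ) (φ : (Fin k → ℂ) → ℂ), 0 < r ∧ DifferentiableOn ℂ φ (ball z₀ r) ∧ φ z₀ = t₀ ∧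
      ∀ z ∈ ball z₀ r, F (z, φ z) = 0 := by
  let G : (Fin k → ℂ) × ℂ → (Fin k → ℂ) × ℂ := fun x => (x.1, F x)
  let p : (Fin k → ℂ) × ℂ := (z₀, t₀)
  let F' := fderiv ℂ F p
  have hF' : HasFDerivAt F F' p := (hF.differentiable one_ne_zero p).hasFDerivAt
  have hpart : ∀ τ : ℂ, F' (0, τ) = τ * deriv (fun t => F (z₀, t)) t₀ := by
    intro τ
    have h2 : HasDerivAt (fun t : ℂ => ((z₀, t) : (Fin k → ℂ) × ℂ)) (0, 1) t₀ :=
      (hasDerivAt_const t₀ z₀).prodMk (hasDerivAt_id t₀)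
    have h3 : HasDerivAt (fun t => F (z₀, t)) (F' (0, 1)) t₀ := hF'.comp_hasDerivAt t₀ h2
    rw [h3.deriv]
    have : ((0, τ) : (Fin k → ℂ) × ℂ) = τ • (0, 1) := by simp
    rw [this, map_smul, smul_eq_mul]
  let T : (Fin k → ℂ) × ℂ →L[ℂ] (Fin k → ℂ) × ℂ := (ContinuousLinearMap.fst ℂ _ _).prod F'
  have hinj : Function.Injective (T : (Fin k → ℂ) × ℂ →ₗ[ℂ] (Fin k → ℂ) × ℂ) := by
    rw [← LinearMap.ker_eq_bot, LinearMap.ker_eq_bot']
    rintro ⟨v, τ⟩ hx
    have h2 : v = 0 := congrArg Prod.fst hx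
    have h3 : F' (v, τ) = 0 := congrArg Prod.snd hx
    subst h2
    rw [hpart, mul_eq_zero] at h3
    have := h3.resolve_right h1
    subst this; rfl
  let E : ((Fin k → ℂ) × ℂ) ≃L[ℂ] ((Fin k → ℂ) × ℂ) :=
    (LinearEquiv.ofInjectiveEndo (T : (Fin k → ℂ) × ℂ →ₗ[ℂ] (Fin k → ℂ) × ℂ)
      hinj).toContinuousLinearEquiv
  have hE : (E : (Fin k → ℂ) × ℂ →L[ℂ] (Fin k → ℂ) × ℂ) = T :=
    ContinuousLinearMap.ext fun x => rfl
  have hG : ContDiffAt ℂ 1 G p := contDiffAt_fst.prodMk hF.contDiffAt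
  have hG' : HasFDerivAt G (E : (Fin k → ℂ) × ℂ →L[ℂ] (Fin k → ℂ) × ℂ) p := by
    rw [hE]; exact hasFDerivAt_fst.prodMk hF'
  let H := hG.toOpenPartialHomeomorph G hG' one_ne_zero
  have hps : p ∈ H.source := hG.mem_toOpenPartialHomeomorph_source hG' one_ne_zero
  have hpt : G p ∈ H.target := hG.image_mem_toOpenPartialHomeomorph_target hG' one_ne_zero
  have hHp : H.symm (G p) = p := H.left_inv hps
  have hGp : G p = (z₀, 0) := by simp [G, p, h0]
  have hsymm : ContDiffAt ℂ 1 H.symm (G p) := by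
    refine H.contDiffAt_symm hpt (f₀' := E) ?_ ?_
    · rw [hHp]; exact hG'
    · rw [hHp]; exact hG
  have hev0 : ∀ᶠ q in 𝓝 (G p), q ∈ H.target := H.open_target.mem_nhds hpt
  have hev : ∀ᶠ q in 𝓝 (G p), q ∈ H.target ∧ DifferentiableAt ℂ H.symm q :=
    hev0.and ((hsymm.eventually (by simp)).mono fun q hq => hq.differentiableAt one_ne_zero)
  obtain ⟨r, hr, hball⟩ := Metric.eventually_nhds_iff_ball.1 hev
  have hmem : ∀ z ∈ ball z₀ r, ((z, 0) : (Fin k → ℂ) × ℂ) ∈ ball (G p) r := by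
    intro z hz
    rw [hGp, mem_ball, Prod.dist_eq, max_lt_iff]
    exact ⟨hz, by simpa using hr⟩
  refine ⟨r, fun z => (H.symm (z, 0)).2, hr, ?_, ?_, ?_⟩
  · intro z hz
    have h2 := (hball _ (hmem z hz)).2
    have h3 : DifferentiableAt ℂ (fun z : Fin k → ℂ => ((z, 0) : (Fin k → ℂ) × ℂ)) z := by fun_prop
    exact (differentiableAt_snd.comp z (h2.comp z h3)).differentiableWithinAt
  · change (H.symm (z₀, 0)).2 = t₀
    rw [← hGp, hHp]
  · intro z hz
    have h2 := H.right_inv (hball _ (hmem z hz)).1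
    have h3 : (H.symm (z, 0)).1 = z := congrArg Prod.fst h2
    have h4 : F (H.symm (z, 0)) = 0 := congrArg Prod.snd h2
    have h5 : (z, (H.symm (z, 0)).2) = H.symm (z, 0) := by
      ext1
      · exact h3.symm
      · rfl
    rw [h5, h4]

open Polynomial in
theorem roots_local {k : ℕ} (P : (MvPolynomial (Fin k) ℂ)[X]) (hP : P.Monic) (z₀ : Fin k → ℂ)
    (hsep : (P.map (MvPolynomial.eval z₀)).Separable) :
    ∃ (r : ℝ) (τ : Fin P.natDegree → (Fin k → ℂ) → ℂ), 0 < r ∧
      (∀ i, DifferentiableOn ℂ (τ i) (ball z₀ r)) ∧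
      ∀ z ∈ ball z₀ r, Function.Injective (fun i => τ i z) ∧
        ∀ t, (P.map (MvPolynomial.eval z)).eval t = 0 ↔ ∃ i, t = τ i z := by
  classical
  let Pz : (Fin k → ℂ) → ℂ[X] := fun z => P.map (MvPolynomial.eval z)
  have hmon : ∀ z, (Pz z).Monic := fun z => hP.map _
  have hdeg : ∀ z, (Pz z).natDegree = P.natDegree := fun z => hP.natDegree_map _
  let F : (Fin k → ℂ) × ℂ → ℂ := fun x => (Pz x.1).eval x.2
  have hFe : ∀ x : (Fin k → ℂ) × ℂ, F x = ∑ j ∈ Finset.range (P.natDegree + 1),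
      MvPolynomial.eval x.1 (P.coeff j) * x.2 ^ j := by
    intro x
    simp only [F]
    rw [Polynomial.eval_eq_sum_range, hdeg]
    simp only [Pz, Polynomial.coeff_map]
  have hF : ContDiff ℂ 1 F := by
    rw [show F = _ from funext hFe]
    refine ContDiff.sum fun j _ => ?_
    refine ContDiff.mul ?_ (contDiff_snd.pow j)
    have h1 : ContDiff ℂ 1 (fun z : Fin k → ℂ => MvPolynomial.eval z (P.coeff j)) :=
      contDiff_iff_contDiffAt.2 fun z =>
        ((AnalyticOnNhd.eval_mvPolynomial (P.coeff j)) z (mem_univ z)).contDiffAt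
    exact h1.comp contDiff_fst
  -- the roots at `z₀`
  have hcard : (Pz z₀).roots.toFinset.card = P.natDegree := by
    rw [Multiset.toFinset_card_of_nodup (Polynomial.nodup_roots hsep), ← hdeg z₀]
    exact Polynomial.splits_iff_card_roots.1 (IsAlgClosed.splits _)
  let ρ : Fin P.natDegree → ℂ := fun i =>
    ((Pz z₀).roots.toFinset.equivFinOfCardEq hcard).symm i
  have hρinj : Function.Injective ρ := fun i j h =>
    ((Pz z₀).roots.toFinset.equivFinOfCardEq hcard).symm.injective (Subtype.ext h)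
  have hρroot : ∀ i, (Pz z₀).eval (ρ i) = 0 := by
    intro i
    have h1 := (((Pz z₀).roots.toFinset.equivFinOfCardEq hcard).symm i).2
    rw [Multiset.mem_toFinset] at h1
    exact Polynomial.isRoot_of_mem_roots h1
  have hder : ∀ i, deriv (fun t => F (z₀, t)) (ρ i) ≠ 0 := by
    intro i
    change deriv (fun t => (Pz z₀).eval t) (ρ i) ≠ 0
    rw [Polynomial.deriv]
    intro h0
    obtain ⟨a, b, hab⟩ := hsep
    have h1 := congrArg (Polynomial.eval (ρ i)) hab
    rw [Polynomial.eval_add, Polynomial.eval_mul, Polynomial.eval_mul, hρroot i, h0] at h1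
    simp at h1
  choose r φ hr hφd hφ0 hφ using fun i => implicit_root F hF z₀ (ρ i) (hρroot i) (hder i)
  -- shrink the ball
  have hcont : ∀ i, ContinuousAt (φ i) z₀ := fun i =>
    ((hφd i).differentiableAt (isOpen_ball.mem_nhds (mem_ball_self (hr i)))).continuousAt
  have hev : ∀ᶠ z in 𝓝 z₀, (∀ i, z ∈ ball z₀ (r i)) ∧ ∀ i j, i ≠ j → φ i z ≠ φ j z := by
    refine (eventually_all.2 fun i => isOpen_ball.mem_nhds (mem_ball_self (hr i))).and ?_
    refine eventually_all.2 fun i => eventually_all.2 fun j => ?_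
    by_cases hij : i = j
    · exact Eventually.of_forall fun z h => absurd hij h
    · have h1 : φ i z₀ ≠ φ j z₀ := by
        rw [hφ0, hφ0]; exact fun h => hij (hρinj h)
      filter_upwards [((hcont i).sub (hcont j)).eventually_ne
        (by simpa [sub_eq_zero] using h1 : φ i z₀ - φ j z₀ ≠ 0)] with z hz _ h
      exact hz (sub_eq_zero.2 h)
  obtain ⟨R, hR, hball⟩ := Metric.eventually_nhds_iff_ball.1 hev
  refine ⟨R, φ, hR, fun i => (hφd i).mono fun z hz => (hball z hz).1 i, fun z hz => ?_⟩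
  have hinj : Function.Injective (fun i => φ i z) := by
    intro i j h
    by_contra hij
    exact (hball z hz).2 i j hij h
  have hroot : ∀ i, (Pz z).eval (φ i z) = 0 := fun i => hφ i z ((hball z hz).1 i)
  refine ⟨hinj, fun t => ⟨fun ht => ?_, ?_⟩⟩
  · have hsub : Finset.univ.image (fun i => φ i z) ⊆ (Pz z).roots.toFinset := by
      intro x hx
      obtain ⟨i, -, rfl⟩ := Finset.mem_image.1 hx
      rw [Multiset.mem_toFinset, Polynomial.mem_roots (hmon z).ne_zero]
      exact hroot i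
    have hc1 : (Finset.univ.image (fun i => φ i z)).card = P.natDegree := by
      rw [Finset.card_image_of_injective _ hinj]; simp
    have hc2 : (Pz z).roots.toFinset.card ≤ P.natDegree := by
      refine (Multiset.toFinset_card_le _).trans ?_
      rw [← hdeg z]; exact Polynomial.card_roots' _
    have heq := Finset.eq_of_subset_of_card_le hsub (by rw [hc1]; exact hc2)
    have ht' : t ∈ (Pz z).roots.toFinset := by
      rw [Multiset.mem_toFinset, Polynomial.mem_roots (hmon z).ne_zero]; exact ht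
    rw [← heq] at ht'
    obtain ⟨i, -, hi⟩ := Finset.mem_image.1 ht'
    exact ⟨i, hi.symm⟩
  · rintro ⟨i, rfl⟩
    exact hroot i

end Pool.Agent.J4.H11.QH
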