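import Pool.Agent.J4.H11.QH.Charts
import Pool.Agent.J4.H11.QH.Prim
import Pool.Agent.J4.H11.QH.Roots

/-! Noether normalisation of a smooth connected affine variety, as a branched covering. -/

set_option autoImplicit false
set_option maxHeartbeats 4000000
set_option synthInstance.maxHeartbeats 400000

open Metric Set Topology Filter Polynomial

namespace Pool.Agent.J4.H11.QH

/-- vanishing ideal -/
def vIdeal {m : ℕ} (Y : Set (Fin m → ℂ)) : Ideal (MvPolynomial (Fin m) ℂ) where
  carrier := {P | ∀ y ∈ Y, MvPolynomial.eval y P = 0}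
  add_mem' := fun ha hb y hy => by rw [map_add, ha y hy, hb y hy, add_zero]
  zero_mem' := fun y _ => map_zero _
  smul_mem' := fun c a ha y hy => by rw [smul_eq_mul, map_mul, ha y hy, mul_zero]

theorem mem_vIdeal {m : ℕ} {Y : Set (Fin m → ℂ)} {P : MvPolynomial (Fin m) ℂ} :
    P ∈ vIdeal Y ↔ ∀ y ∈ Y, MvPolynomial.eval y P = 0 := Iff.rfl

theorem differentiable_eval {m : ℕ} (P : MvPolynomial (Fin m) ℂ) :
    Differentiable ℂ (fun y : Fin m → ℂ => MvPolynomial.eval y P) := fun z =>
  ((AnalyticOnNhd.eval_mvPolynomial P) z (mem_univ z)).differentiableAt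

theorem holOn_of_differentiable {m : ℕ} {Y : Set (Fin m → ℂ)} {u : (Fin m → ℂ) → ℂ}
    (hu : Differentiable ℂ u) : H113G.HolOn Y u := fun p _ =>
  ⟨univ, isOpen_univ, mem_univ p, u, hu.differentiableOn, fun _ _ _ => rfl⟩

theorem vIdeal_prime {m : ℕ} {Y : Set (Fin m → ℂ)} (hch : H113G.HasCharts Y)
    (hc : IsConnected Y) : (vIdeal Y).IsPrime := by
  refine ⟨?_, ?_⟩
  · intro h
    obtain ⟨y, hy⟩ := hc.nonempty
    have h1 : (1 : MvPolynomial (Fin m) ℂ) ∈ vIdeal Y := by rw [h]; trivial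
    have := h1 y hy
    simp at this
  · intro P Q hPQ
    by_contra hcon
    push Not at hcon
    obtain ⟨hP, hQ⟩ := hcon
    apply hQ
    rw [mem_vIdeal] at hP ⊢
    push Not at hP
    obtain ⟨y, hy, hPy⟩ := hP
    refine eq_zero_of_eventually hch hc.isPreconnected
      (holOn_of_differentiable (differentiable_eval Q)) hy ?_
    have h1 : ∀ᶠ z in 𝓝 y, MvPolynomial.eval z P ≠ 0 :=
      (differentiable_eval P).continuous.continuousAt.eventually_ne hPy
    filter_upwards [mem_nhdsWithin_of_mem_nhds h1, self_mem_nhdsWithin] with z hz hzY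
    have h2 := hPQ z hzY
    rw [map_mul, mul_eq_zero] at h2
    exact h2.resolve_left hz

/-- bound for roots of monic polynomials -/
theorem root_bound {k : ℕ} (Q : (MvPolynomial (Fin k) ℂ)[X]) (hQ : Q.Monic) (R : ℝ) :
    ∃ C : ℝ, ∀ (w : Fin k → ℂ) (t : ℂ), ‖w‖ ≤ R → Q.eval₂ (MvPolynomial.eval w) t = 0 → ‖t‖ ≤ C := by
  have hb : ∀ n, ∃ C : ℝ, 0 ≤ C ∧ ∀ w : Fin k → ℂ, ‖w‖ ≤ R →
      ‖MvPolynomial.eval w (Q.coeff n)‖ ≤ C := by
    intro n
    obtain ⟨C, hC⟩ := (isCompact_closedBall (0 : Fin k → ℂ) R).exists_bound_of_continuousOn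
      (differentiable_eval (Q.coeff n)).continuous.continuousOn
    exact ⟨max C 0, le_max_right _ _, fun w hw =>
      (hC w (mem_closedBall_zero_iff.2 hw)).trans (le_max_left _ _)⟩
  choose C hC0 hC using hb
  refine ⟨1 + ∑ n ∈ Finset.range Q.natDegree, C n, fun w t hw ht => ?_⟩
  by_contra hcon
  push Not at hcon
  have hsum0 : 0 ≤ ∑ n ∈ Finset.range Q.natDegree, C n := Finset.sum_nonneg fun n _ => hC0 n
  have ht1 : 1 ≤ ‖t‖ := by linarith
  rw [eval₂_eq_sum_range, Finset.sum_range_succ, hQ.coeff_natDegree, map_one, one_mul] at ht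
  rcases Nat.eq_zero_or_pos Q.natDegree with h0 | hpos
  · rw [h0] at ht; simp at ht
  have h1 : ‖t‖ ^ Q.natDegree ≤ (∑ n ∈ Finset.range Q.natDegree, C n) * ‖t‖ ^ (Q.natDegree - 1) := by
    have h2 : t ^ Q.natDegree = - ∑ n ∈ Finset.range Q.natDegree,
        MvPolynomial.eval w (Q.coeff n) * t ^ n := by linear_combination ht
    rw [← norm_pow, h2, norm_neg, Finset.sum_mul]
    refine (norm_sum_le _ _).trans (Finset.sum_le_sum fun n hn => ?_)
    rw [norm_mul, norm_pow]
    refine mul_le_mul (hC n w hw) (pow_le_pow_right₀ ht1 ?_) (by positivity) (hC0 n)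
    have := Finset.mem_range.1 hn; omega
  have h3 : ‖t‖ ^ Q.natDegree = ‖t‖ * ‖t‖ ^ (Q.natDegree - 1) := by
    rw [← pow_succ']; congr 1; omega
  rw [h3] at h1
  have h4 : 0 < ‖t‖ ^ (Q.natDegree - 1) := by positivity
  have h5 := le_of_mul_le_mul_right h1 h4
  linarith

theorem differentiableOn_eval₂ {k : ℕ} (p : (MvPolynomial (Fin k) ℂ)[X]) {U : Set (Fin k → ℂ)}
    {τ : (Fin k → ℂ) → ℂ} (hτ : DifferentiableOn ℂ τ U) :
    DifferentiableOn ℂ (fun w => p.eval₂ (MvPolynomial.eval w) (τ w)) U := by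
  simp only [eval₂_eq_sum_range]
  refine DifferentiableOn.fun_sum fun n _ => ?_
  exact (differentiable_eval _).differentiableOn.mul (hτ.pow n)

theorem isClosed_of_isAlg {m : ℕ} {Y : Set (Fin m → ℂ)} (hA : H113G.IsAlg Y) : IsClosed Y := by
  obtain ⟨S, rfl⟩ := hA
  have : {y : Fin m → ℂ | ∀ P ∈ S, MvPolynomial.eval y P = 0} =
      ⋂ P ∈ S, {y | MvPolynomial.eval y P = 0} := by ext y; simp
  rw [this]
  exact isClosed_biInter fun P _ => isClosed_eq (differentiable_eval P).continuous continuous_const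

/-- the point with given value of the primitive element -/
noncomputable def yv {k m : ℕ} (d : MvPolynomial (Fin k) ℂ) (R : Fin m → (MvPolynomial (Fin k) ℂ)[X])
    (w : Fin k → ℂ) (τ : ℂ) : Fin m → ℂ :=
  fun j => (R j).eval₂ (MvPolynomial.eval w) τ / MvPolynomial.eval w d

theorem clear_denominators {k m : ℕ} {A : Type*} [CommRing A]
    [Algebra (MvPolynomial (Fin k) ℂ) A] (π : MvPolynomial (Fin m) ℂ →+* A)
    (hπC : ∀ c : ℂ, π (MvPolynomial.C c) = algebraMap (MvPolynomial (Fin k) ℂ) A (MvPolynomial.C c))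
    (θ : A) (d : MvPolynomial (Fin k) ℂ) (R : Fin m → (MvPolynomial (Fin k) ℂ)[X])
    (hR : ∀ j, algebraMap _ A d * π (MvPolynomial.X j) = aeval θ (R j))
    (f : MvPolynomial (Fin m) ℂ) :
    ∃ (N : ℕ) (H : (MvPolynomial (Fin k) ℂ)[X]), aeval θ H = algebraMap _ A d ^ N * π f ∧
      ∀ (w : Fin k → ℂ) (τ : ℂ), MvPolynomial.eval w d ≠ 0 →
        H.eval₂ (MvPolynomial.eval w) τ =
          (MvPolynomial.eval w d) ^ N * MvPolynomial.eval (yv d R w τ) f := by
  induction f using MvPolynomial.induction_on with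
  | C c =>
    refine ⟨0, C (MvPolynomial.C c), ?_, fun w τ _ => ?_⟩
    · rw [aeval_C, hπC]; simp
    · simp
  | add f₁ f₂ h₁ h₂ =>
    obtain ⟨N₁, H₁, e₁, g₁⟩ := h₁
    obtain ⟨N₂, H₂, e₂, g₂⟩ := h₂
    refine ⟨N₁ + N₂, C (d ^ N₂) * H₁ + C (d ^ N₁) * H₂, ?_, fun w τ hw => ?_⟩
    · rw [map_add, map_mul, map_mul, aeval_C, aeval_C, e₁, e₂, map_add, map_pow, map_pow]
      ring
    · rw [eval₂_add, eval₂_mul, eval₂_mul, eval₂_C, eval₂_C, g₁ w τ hw, g₂ w τ hw, map_add,
        map_pow, map_pow]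
      ring
  | mul_X f j h =>
    obtain ⟨N, H, e, g⟩ := h
    refine ⟨N + 1, H * R j, ?_, fun w τ hw => ?_⟩
    · rw [map_mul, e, ← hR j, map_mul]; ring
    · have h1 : MvPolynomial.eval w d * yv d R w τ j = (R j).eval₂ (MvPolynomial.eval w) τ := by
        rw [yv]; field_simp
      rw [eval₂_mul, g w τ hw, ← h1, map_mul, MvPolynomial.eval_X]; ring

theorem eval_bind₁' {k l : ℕ} (f : Fin k → MvPolynomial (Fin l) ℂ) (p : MvPolynomial (Fin k) ℂ)
    (z : Fin l → ℂ) : MvPolynomial.eval z (MvPolynomial.bind₁ f p) =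
      MvPolynomial.eval (fun i => MvPolynomial.eval z (f i)) p := by
  induction p using MvPolynomial.induction_on with
  | C c => simp
  | add p q hp hq => rw [map_add, map_add, map_add, hp, hq]
  | mul_X p i hp => rw [map_mul, map_mul, map_mul, hp, MvPolynomial.bind₁_X_right,
      MvPolynomial.eval_X]

theorem exists_cov {m : ℕ} {Y : Set (Fin m → ℂ)} (hA : H113G.IsAlg Y)
    (hch : H113G.HasCharts Y) (hc : IsConnected Y) :
    ∃ (k : ℕ) (pr : (Fin m → ℂ) → (Fin k → ℂ)) (δ : MvPolynomial (Fin k) ℂ) (e : ℕ),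
      H113G.Cov Y pr δ e := by
  classical
  have hprime := vIdeal_prime hch hc
  obtain ⟨A, _, _, _, π, hπs, hπk, hft⟩ : ∃ (A : Type) (_ : CommRing A) (_ : IsDomain A)
      (_ : Algebra ℂ A) (π : MvPolynomial (Fin m) ℂ →ₐ[ℂ] A), Function.Surjective π ∧
      (∀ f, π f = 0 ↔ ∀ y ∈ Y, MvPolynomial.eval y f = 0) ∧ Algebra.FiniteType ℂ A := by
    refine ⟨MvPolynomial (Fin m) ℂ ⧸ vIdeal Y, inferInstance, Ideal.Quotient.isDomain _,
      inferInstance, Ideal.Quotient.mkₐ ℂ (vIdeal Y), Ideal.Quotient.mkₐ_surjective _ _, ?_, ?_⟩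
    · intro f
      rw [← mem_vIdeal]
      exact Ideal.Quotient.eq_zero_iff_mem
    · infer_instance
  obtain ⟨k, g, ginj, gfin⟩ := exists_finite_inj_algHom_of_fg ℂ A
  let _ : Algebra (MvPolynomial (Fin k) ℂ) A := g.toRingHom.toAlgebra
  have hmf : Module.Finite (MvPolynomial (Fin k) ℂ) A := gfin
  have hgalg : ∀ s, algebraMap (MvPolynomial (Fin k) ℂ) A s = g s := fun s => rfl
  obtain ⟨θ, d, c, R, a, b, hd, hcc, hR, hab⟩ :=
    exists_primitive (S := MvPolynomial (Fin k) ℂ) (A := A) ginj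
      (fun j => π (MvPolynomial.X j))
  have hint : Algebra.IsIntegral (MvPolynomial (Fin k) ℂ) A := inferInstance
  have hfs : FaithfulSMul (MvPolynomial (Fin k) ℂ) A :=
    (faithfulSMul_iff_algebraMap_injective _ _).2 ginj
  have hθ : IsIntegral (MvPolynomial (Fin k) ℂ) θ := hint.isIntegral θ
  set P := minpoly (MvPolynomial (Fin k) ℂ) θ with hP
  have hPm : P.Monic := minpoly.monic hθ
  have hπC : ∀ c : ℂ, (π : MvPolynomial (Fin m) ℂ →+* A) (MvPolynomial.C c) =
      algebraMap (MvPolynomial (Fin k) ℂ) A (MvPolynomial.C c) := by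
    intro c
    rw [hgalg]
    have h1 : π (MvPolynomial.C c) = algebraMap ℂ A c := π.commutes c
    have h2 : g (MvPolynomial.C c) = algebraMap ℂ A c := g.commutes c
    rw [h2]; exact h1
  -- evaluation of identities
  have key : ∀ (f : MvPolynomial (Fin m) ℂ) (h : (MvPolynomial (Fin k) ℂ)[X]),
      π f = aeval θ h → ∀ (w : Fin k → ℂ) (τ : ℂ), MvPolynomial.eval w d ≠ 0 →
      P.eval₂ (MvPolynomial.eval w) τ = 0 →
      MvPolynomial.eval (yv d R w τ) f = h.eval₂ (MvPolynomial.eval w) τ := by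
    intro f h hfh w τ hw hPw
    obtain ⟨N, H, e, g'⟩ := clear_denominators (π : MvPolynomial (Fin m) ℂ →+* A) hπC θ d R hR f
    have h1 : aeval θ (H - C (d ^ N) * h) = 0 := by
      rw [map_sub, e, map_mul, aeval_C, map_pow, ← hfh]
      simp
    have h2 : P ∣ H - C (d ^ N) * h := minpoly.isIntegrallyClosed_dvd hθ h1
    obtain ⟨q, hq⟩ := h2
    have h3 := congrArg (fun p => Polynomial.eval₂ (MvPolynomial.eval w) τ p) hq
    simp only [eval₂_sub, eval₂_mul, eval₂_C, hPw, zero_mul] at h3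
    rw [g' w τ hw, map_pow, ← mul_sub, mul_eq_zero] at h3
    exact sub_eq_zero.1 (h3.resolve_left (pow_ne_zero _ hw))
  -- evaluation at the points of `Y`
  have hεex : ∀ y ∈ Y, ∃ ε : A →+* ℂ, ∀ f, ε (π f) = MvPolynomial.eval y f := by
    intro y hy
    refine ⟨RingHom.liftOfSurjective (π : MvPolynomial (Fin m) ℂ →+* A) hπs
      ⟨MvPolynomial.eval y, fun f hf => (hπk f).1 hf y hy⟩, fun f => ?_⟩
    exact RingHom.liftOfSurjective_comp_apply _ _ _ _
  have hne : Nonempty (A →+* ℂ) := by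
    obtain ⟨y, hy⟩ := hc.nonempty
    exact ⟨(hεex y hy).choose⟩
  choose! ε hε using hεex
  -- the projection
  choose q hq using fun i : Fin k => hπs (g (MvPolynomial.X i))
  obtain ⟨Θ, hΘ⟩ := hπs θ
  have hεS : ∀ y ∈ Y, ∀ s : MvPolynomial (Fin k) ℂ, ε y (algebraMap _ A s) =
      MvPolynomial.eval (fun i => MvPolynomial.eval y (q i)) s := by
    intro y hy s
    have h1 : (ε y).comp (algebraMap (MvPolynomial (Fin k) ℂ) A) =
        MvPolynomial.eval (fun i => MvPolynomial.eval y (q i)) := by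
      refine MvPolynomial.ringHom_ext (fun c => ?_) (fun i => ?_)
      · rw [RingHom.comp_apply, ← hπC]
        have := hε y hy (MvPolynomial.C c)
        rw [MvPolynomial.eval_C] at this
        rw [MvPolynomial.eval_C]
        exact this
      · rw [RingHom.comp_apply, hgalg, ← hq, hε y hy, MvPolynomial.eval_X]
    exact RingHom.congr_fun h1 s
  have hεθ : ∀ y ∈ Y, ∀ h : (MvPolynomial (Fin k) ℂ)[X], ε y (aeval θ h) =
      h.eval₂ (MvPolynomial.eval (fun i => MvPolynomial.eval y (q i))) (MvPolynomial.eval y Θ) := by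
    intro y hy h
    rw [aeval_def, Polynomial.hom_eval₂]
    congr 1
    · ext s
      · exact hεS y hy _
      · exact hεS y hy _
    · rw [← hΘ, hε y hy]
  -- base point
  have hδ0 : d * c ≠ 0 := mul_ne_zero hd hcc
  obtain ⟨z₀, hz₀⟩ : ∃ z₀ : Fin k → ℂ, MvPolynomial.eval z₀ (d * c) ≠ 0 := by
    by_contra hcon
    push Not at hcon
    exact hδ0 (MvPolynomial.funext fun z => by rw [hcon z, map_zero])
  let δ : MvPolynomial (Fin k) ℂ :=
    MvPolynomial.bind₁ (fun i => MvPolynomial.X i + MvPolynomial.C (z₀ i)) (d * c)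
  have hδ : ∀ z, MvPolynomial.eval z δ = MvPolynomial.eval (z + z₀) (d * c) := by
    intro z
    have h1 : (fun i => MvPolynomial.eval z (MvPolynomial.X i + MvPolynomial.C (z₀ i))) =
        z + z₀ := by funext i; simp
    simp only [δ]
    rw [eval_bind₁', h1]
  let pr0 : (Fin m → ℂ) → (Fin k → ℂ) := fun y i => MvPolynomial.eval y (q i)
  let pr : (Fin m → ℂ) → (Fin k → ℂ) := fun y i => MvPolynomial.eval y (q i) - z₀ i
  have hpr : ∀ y, pr y + z₀ = pr0 y := fun y => by
    funext i; simp [pr, pr0]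
  have hpr' : ∀ y z, pr y = z ↔ pr0 y = z + z₀ := fun y z => by
    rw [← hpr]; exact (add_left_inj z₀).symm
  -- the value of the primitive element is a root
  have hroot : ∀ y ∈ Y, P.eval₂ (MvPolynomial.eval (pr0 y)) (MvPolynomial.eval y Θ) = 0 := by
    intro y hy
    have h1 := hεθ y hy P
    rw [hP, minpoly.aeval, map_zero] at h1
    exact h1.symm
  have hcoord : ∀ y ∈ Y, MvPolynomial.eval (pr0 y) d ≠ 0 →
      y = yv d R (pr0 y) (MvPolynomial.eval y Θ) := by
    intro y hy hdy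
    funext j
    have h1 := congrArg (ε y) (hR j)
    rw [map_mul, hεS y hy, hε y hy, MvPolynomial.eval_X, hεθ y hy] at h1
    rw [yv, eq_div_iff hdy, mul_comm]
    exact h1
  have hfib : ∀ (w : Fin k → ℂ) (τ : ℂ), MvPolynomial.eval w d ≠ 0 →
      P.eval₂ (MvPolynomial.eval w) τ = 0 → yv d R w τ ∈ Y ∧ pr0 (yv d R w τ) = w ∧
        MvPolynomial.eval (yv d R w τ) Θ = τ := by
    intro w τ hw hτ
    refine ⟨?_, ?_, ?_⟩
    · obtain ⟨S, hS⟩ := hA
      rw [hS]
      intro f hf
      have h1 : π f = aeval θ (0 : (MvPolynomial (Fin k) ℂ)[X]) := by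
        rw [map_zero, hπk]
        intro y hy
        rw [hS] at hy
        exact hy f hf
      have h2 := key f 0 h1 w τ hw hτ
      rw [eval₂_zero] at h2
      exact h2
    · funext i
      have h2 := key (q i) (C (MvPolynomial.X i)) (by rw [hq, aeval_C, hgalg]) w τ hw hτ
      rw [eval₂_C, MvPolynomial.eval_X] at h2
      exact h2
    · have h2 := key Θ X (by rw [hΘ, aeval_X]) w τ hw hτ
      rw [eval₂_X] at h2
      exact h2
  refine ⟨k, pr, δ, P.natDegree, isClosed_of_isAlg hA, ?_, ?_, ?_, ?_, ?_⟩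
  · rw [differentiable_pi]
    intro i
    exact (differentiable_eval (q i)).sub_const _
  · rw [hδ, zero_add]; exact hz₀
  · -- properness
    intro r
    have h1 : ∀ j, ∃ C : ℝ, ∀ y ∈ Y, ‖pr y‖ ≤ r → ‖y j‖ ≤ C := by
      intro j
      have hj := hint.isIntegral (π (MvPolynomial.X j))
      obtain ⟨C, hC⟩ := root_bound _ (minpoly.monic hj) (r + ‖z₀‖)
      refine ⟨C, fun y hy hyr => hC (pr0 y) (y j) ?_ ?_⟩
      · rw [← hpr]; exact (norm_add_le _ _).trans (by linarith)
      · have h2 := congrArg (ε y) (minpoly.aeval (MvPolynomial (Fin k) ℂ) (π (MvPolynomial.X j)))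
        rw [map_zero, aeval_def, Polynomial.hom_eval₂, hε y hy, MvPolynomial.eval_X] at h2
        have h3 : (ε y).comp (algebraMap (MvPolynomial (Fin k) ℂ) A) =
            MvPolynomial.eval (pr0 y) := RingHom.ext fun s => hεS y hy s
        rwa [h3] at h2
    choose C hC using h1
    refine ⟨∑ j, |C j|, fun y hy hyr => ?_⟩
    rw [pi_norm_le_iff_of_nonneg (Finset.sum_nonneg fun j _ => abs_nonneg _)]
    intro j
    exact ((hC j y hy hyr).trans (le_abs_self _)).trans
      (Finset.single_le_sum (f := fun j => |C j|) (fun j _ => abs_nonneg _) (Finset.mem_univ j))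
  · -- dominance
    intro D hD
    let D' : MvPolynomial (Fin k) ℂ :=
      MvPolynomial.bind₁ (fun i => MvPolynomial.X i - MvPolynomial.C (z₀ i)) D
    have hD'e : ∀ z, MvPolynomial.eval z D' = MvPolynomial.eval (z - z₀) D := by
      intro z
      have h1 : (fun i => MvPolynomial.eval z (MvPolynomial.X i - MvPolynomial.C (z₀ i))) =
          z - z₀ := by funext i; simp
      simp only [D']
      rw [eval_bind₁', h1]
    have hD' : D' ≠ 0 := by
      intro h0
      apply hD
      refine MvPolynomial.funext fun z => ?_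
      have h1 := hD'e (z + z₀)
      rw [h0, map_zero, add_sub_cancel_right] at h1
      rw [← h1, map_zero]
    by_contra hcon
    push Not at hcon
    apply hD'
    apply ginj
    obtain ⟨f, hf⟩ := hπs (g D')
    rw [map_zero, ← hf, hπk]
    intro y hy
    have h1 := hεS y hy D'
    rw [hgalg, ← hf, hε y hy] at h1
    rw [h1]
    change MvPolynomial.eval (pr0 y) D' = 0
    rw [hD'e, ← hpr, add_sub_cancel_right]
    exact hcon y hy
  · -- sections
    intro z hz
    set w := z + z₀ with hw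
    rw [hδ, ← hw, map_mul] at hz
    have hsep : (P.map (MvPolynomial.eval w)).Separable := by
      have h1 := congrArg (Polynomial.map (MvPolynomial.eval w)) hab
      rw [Polynomial.map_add, Polynomial.map_mul, Polynomial.map_mul, Polynomial.map_C,
        ← Polynomial.derivative_map] at h1
      have hcw : MvPolynomial.eval w c ≠ 0 := right_ne_zero_of_mul hz
      refine ⟨C (MvPolynomial.eval w c)⁻¹ * a.map (MvPolynomial.eval w),
        C (MvPolynomial.eval w c)⁻¹ * b.map (MvPolynomial.eval w), ?_⟩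
      rw [mul_assoc, mul_assoc, ← mul_add, h1, ← C_mul, inv_mul_cancel₀ hcw, C_1]
    obtain ⟨r, τ, hr, hτd, hτ⟩ := roots_local P hPm w hsep
    have hev : ∀ᶠ w' in 𝓝 w, MvPolynomial.eval w' (d * c) ≠ 0 :=
      (differentiable_eval (d * c)).continuous.continuousAt.eventually_ne (by rwa [map_mul])
    obtain ⟨r₂, hr₂, hball⟩ := Metric.eventually_nhds_iff_ball.1 hev
    have hmap : ∀ z' ∈ ball z (min r r₂), z' + z₀ ∈ ball w r ∧ z' + z₀ ∈ ball w r₂ := by
      intro z' hz'
      rw [mem_ball] at hz' ⊢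
      rw [mem_ball, hw, dist_add_right]
      exact ⟨hz'.trans_le (min_le_left _ _), hz'.trans_le (min_le_right _ _)⟩
    have hroot' : ∀ z' ∈ ball z (min r r₂), ∀ i,
        P.eval₂ (MvPolynomial.eval (z' + z₀)) (τ i (z' + z₀)) = 0 := by
      intro z' hz' i
      have := ((hτ _ (hmap z' hz').1).2 (τ i (z' + z₀))).2 ⟨i, rfl⟩
      rwa [Polynomial.eval_map] at this
    have hdc : ∀ z' ∈ ball z (min r r₂), MvPolynomial.eval (z' + z₀) d ≠ 0 := by
      intro z' hz'
      have := hball _ (hmap z' hz').2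
      rw [map_mul] at this
      exact left_ne_zero_of_mul this
    refine ⟨min r r₂, lt_min hr hr₂, fun i z' => yv d R (z' + z₀) (τ i (z' + z₀)), ?_, ?_⟩
    · intro i
      rw [differentiableOn_pi]
      intro j
      have h1 : DifferentiableOn ℂ (fun w' => yv d R w' (τ i w') j) (ball w r ∩ ball w r₂) := by
        have g1 : DifferentiableOn ℂ (fun w' => (R j).eval₂ (MvPolynomial.eval w') (τ i w'))
            (ball w r ∩ ball w r₂) :=
          (differentiableOn_eval₂ (R j) (hτd i)).mono inter_subset_left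
        have g2 : DifferentiableOn ℂ (fun w' : Fin k → ℂ => MvPolynomial.eval w' d)
            (ball w r ∩ ball w r₂) := (differentiable_eval d).differentiableOn
        refine g1.fun_mul (g2.fun_inv fun x hx => ?_)
        have := hball _ hx.2
        rw [map_mul] at this
        exact left_ne_zero_of_mul this
      exact h1.comp (by fun_prop : DifferentiableOn ℂ (fun z' : Fin k → ℂ => z' + z₀) _)
        fun z' hz' => ⟨(hmap z' hz').1, (hmap z' hz').2⟩
    · intro z' hz'
      refine ⟨?_, ?_, ?_⟩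
      · rw [hδ]; exact hball _ (hmap z' hz').2
      · intro i j hij
        have h1 := congrArg (fun y => MvPolynomial.eval y Θ) hij
        simp only at h1
        rw [(hfib _ _ (hdc z' hz') (hroot' z' hz' i)).2.2,
          (hfib _ _ (hdc z' hz') (hroot' z' hz' j)).2.2] at h1
        exact (hτ _ (hmap z' hz').1).1 h1
      · ext y
        constructor
        · rintro ⟨hy, hyz⟩
          rw [hpr'] at hyz
          have h1 := hroot y hy
          rw [hyz, ← Polynomial.eval_map] at h1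
          obtain ⟨i, hi⟩ := ((hτ _ (hmap z' hz').1).2 _).1 h1
          refine ⟨i, ?_⟩
          have h2 := hcoord y hy (by rw [hyz]; exact hdc z' hz')
          rw [h2, hyz, hi]
        · rintro ⟨i, rfl⟩
          obtain ⟨h1, h2, -⟩ := hfib _ _ (hdc z' hz') (hroot' z' hz' i)
          exact ⟨h1, (hpr' _ _).2 h2⟩

end Pool.Agent.J4.H11.QH
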