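import Pool.Agent.J4.H11.QH.CountY
import Pool.Agent.J4.H11.QH.Noether
import Pool.Agent.J4.H71.Gorin.FiniteRank

/-! Boundedness of the number of holomorphic maps to `ℂ ∖ {0, 1}` on homeomorphism classes. -/

set_option autoImplicit false
set_option maxHeartbeats 4000000
set_option synthInstance.maxHeartbeats 400000

open Metric Set Topology Filter H113G

namespace Pool.Agent.J4.H11.QH

theorem finiteRank_transfer {E F : Type*} [TopologicalSpace E] [TopologicalSpace F] {A : Set E}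
    {B : Set F} (φ : ↥A ≃ₜ ↥B) {s : ℕ} (h : FiniteRank A s) : FiniteRank B s := by
  classical
  intro g hg h0
  obtain ⟨a, ha, L, hL, hLe⟩ := h (fun l x => if hx : x ∈ A then g l (φ ⟨x, hx⟩) else 1)
    (fun l => by
      rw [continuousOn_iff_continuous_domRestrict]
      have h1 : Continuous (fun x : A => g l (φ x)) :=
        (continuousOn_iff_continuous_domRestrict.1 (hg l)).comp φ.continuous
      convert h1 using 1
      ext x
      simp) (fun l x hx => by
      simp only [hx, dif_pos]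
      exact h0 l _ (φ ⟨x, hx⟩).2)
  refine ⟨a, ha, fun y => if hy : y ∈ B then L (φ.symm ⟨y, hy⟩) else 0, ?_, ?_⟩
  · rw [continuousOn_iff_continuous_domRestrict]
    have h1 : Continuous (fun y : B => L (φ.symm y)) :=
      (continuousOn_iff_continuous_domRestrict.1 hL).comp φ.symm.continuous
    convert h1 using 1
    ext x
    simp
  · intro y hy
    have h1 := hLe (φ.symm ⟨y, hy⟩) (φ.symm ⟨y, hy⟩).2
    simp only [hy, dif_pos]
    rw [h1]
    simp

theorem main_bound {n : ℕ} {X : Set (Fin n → ℂ)} (hXA : IsAlg X) (hXS : IsSmooth X)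
    (hXc : IsConnected X) : ∃ B : ℕ, ∀ (m : ℕ) (Y : Set (Fin m → ℂ)), IsAlg Y → IsSmooth Y →
      IsConnected Y → Nonempty (↥X ≃ₜ ↥Y) →
      {g : ↥Y → ℂ | (∀ y, g y ≠ 0 ∧ g y ≠ 1) ∧ (∃ a b, g a ≠ g b) ∧
        ∀ p : ↥Y, ∃ U : Set (Fin m → ℂ), IsOpen U ∧ (p : Fin m → ℂ) ∈ U ∧
          ∃ h : (Fin m → ℂ) → ℂ, DifferentiableOn ℂ h U ∧
            ∀ y : ↥Y, (y : Fin m → ℂ) ∈ U → h y = g y}.encard ≤ (B : ℕ∞) := by
  classical
  obtain ⟨s, hs⟩ : ∃ s : ℕ, FiniteRank X s := by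
    have hch := hasCharts_of_isSmooth hXS
    obtain ⟨k, pr, δ, e, hc⟩ := exists_cov hXA hch hXc
    exact Pool.Agent.J4.H71.Gorin.finiteRank_of_cov hc hch hXc
  refine ⟨(6 * s + 1) ^ (2 * s), fun m Y hYA hYS hYc ⟨φ⟩ => ?_⟩
  have hch := hasCharts_of_isSmooth hYS
  obtain ⟨k, pr, δ, e, hc⟩ := exists_cov hYA hch hYc
  have hsY : FiniteRank Y s := finiteRank_transfer φ hs
  by_contra hcon
  push Not at hcon
  set B := (6 * s + 1) ^ (2 * s) with hB
  obtain ⟨T, hTs, hTc⟩ := Set.exists_subset_encard_eq (k := ((B + 1 : ℕ) : ℕ∞))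
    (by exact_mod_cast Order.add_one_le_of_lt hcon)
  have hTfin : T.Finite := Set.finite_of_encard_eq_coe hTc
  have hcard : hTfin.toFinset.card = B + 1 := by
    have h1 := hTfin.encard_eq_coe_toFinset_card
    rw [hTc] at h1
    exact_mod_cast h1.symm
  let G : Fin (B + 1) → (↥Y → ℂ) := fun i => ((hTfin.toFinset.equivFinOfCardEq hcard).symm i).1
  have hGinj : Function.Injective G := fun i j h =>
    (hTfin.toFinset.equivFinOfCardEq hcard).symm.injective (Subtype.ext h)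
  have hGmem : ∀ i, G i ∈ T := fun i =>
    hTfin.mem_toFinset.1 ((hTfin.toFinset.equivFinOfCardEq hcard).symm i).2
  have hG := fun i => hTs (hGmem i)
  let f : Fin (B + 1) → (Fin m → ℂ) → ℂ := fun i y => if hy : y ∈ Y then G i ⟨y, hy⟩ else 0
  have hfG : ∀ i (y : ↥Y), f i y = G i y := fun i y => by simp [f]
  have hle := count_bound hc hch hYc.isPreconnected hsY f (fun i p hp => by
      obtain ⟨U, hU, hpU, h, hh, hhy⟩ := (hG i).2.2 ⟨p, hp⟩
      exact ⟨U, hU, hpU, h, hh, fun y hy hyU => (hhy ⟨y, hy⟩ hyU).trans (hfG i ⟨y, hy⟩).symm⟩)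
    (fun i y hy => by rw [hfG i ⟨y, hy⟩]; exact ((hG i).1 _).1)
    (fun i y hy => by rw [hfG i ⟨y, hy⟩]; exact ((hG i).1 _).2)
    (fun i => by
      obtain ⟨a, b, hab⟩ := (hG i).2.1
      exact ⟨a.1, a.2, b.1, b.2, by rw [hfG, hfG]; exact hab⟩)
    (fun i j hij => by
      by_contra hcon'
      push Not at hcon'
      apply hij
      apply hGinj
      funext y
      rw [← hfG, ← hfG]
      exact hcon' y.1 y.2)
  omega

end Pool.Agent.J4.H11.QH
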