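import Pool.Agent.J4.H11.QH.Charts
import Pool.Agent.J4.H11.QH.Entire

/-! Holomorphic functions on a branched covering of affine space. -/

set_option autoImplicit false
set_option maxHeartbeats 4000000
set_option synthInstance.maxHeartbeats 400000

open Metric Set Topology Filter H113G

namespace Pool.Agent.J4.H11.QH

variable {m k : ℕ} {Y : Set (Fin m → ℂ)}

theorem holOn_comp {u : (Fin m → ℂ) → ℂ} (hu : HolOn Y u) {E : Type*} [NormedAddCommGroup E]
    [NormedSpace ℂ E] {σ : E → (Fin m → ℂ)} {U : Set E} (hU : IsOpen U)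
    (hσ : DifferentiableOn ℂ σ U) (hm : ∀ x ∈ U, σ x ∈ Y) :
    DifferentiableOn ℂ (fun x => u (σ x)) U := by
  intro x hx
  obtain ⟨V, hV, hxV, h, hh, hhu⟩ := hu (σ x) (hm x hx)
  have hσx : DifferentiableAt ℂ σ x := hσ.differentiableAt (hU.mem_nhds hx)
  have h1 : DifferentiableAt ℂ (fun x => h (σ x)) x :=
    (hh.differentiableAt (hV.mem_nhds hxV)).comp x hσx
  have h2 : (fun x => u (σ x)) =ᶠ[𝓝 x] fun x => h (σ x) := by
    filter_upwards [hσx.continuousAt.preimage_mem_nhds (hV.mem_nhds hxV), hU.mem_nhds hx]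
      with z hz hzU
    exact (hhu _ (hm z hzU) hz).symm
  exact (h1.congr_of_eventuallyEq h2).differentiableWithinAt

theorem holOn_continuousOn {u : (Fin m → ℂ) → ℂ} (hu : HolOn Y u) : ContinuousOn u Y := by
  intro x hx
  obtain ⟨V, hV, hxV, h, hh, hhu⟩ := hu x hx
  have h1 : ContinuousWithinAt h Y x :=
    (hh.differentiableAt (hV.mem_nhds hxV)).continuousAt.continuousWithinAt
  refine h1.congr_of_eventuallyEq ?_ (hhu x hx hxV).symm
  filter_upwards [self_mem_nhdsWithin, mem_nhdsWithin_of_mem_nhds (hV.mem_nhds hxV)] with z hz hzV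
  exact (hhu z hz hzV).symm

theorem holOn_const (c : ℂ) : HolOn Y (fun _ => c) := fun p _ =>
  ⟨univ, isOpen_univ, mem_univ p, fun _ => c, differentiableOn_const c, fun _ _ _ => rfl⟩

theorem holOn_mul {u v : (Fin m → ℂ) → ℂ} (hu : HolOn Y u) (hv : HolOn Y v) :
    HolOn Y (fun y => u y * v y) := by
  intro p hp
  obtain ⟨U, hU, hpU, f, hf, hfu⟩ := hu p hp
  obtain ⟨V, hV, hpV, g, hg, hgv⟩ := hv p hp
  exact ⟨U ∩ V, hU.inter hV, ⟨hpU, hpV⟩, fun y => f y * g y,
    (hf.mono inter_subset_left).fun_mul (hg.mono inter_subset_right),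
    fun y hy hyU => by simp only [hfu y hy hyU.1, hgv y hy hyU.2]⟩

theorem holOn_sub {u v : (Fin m → ℂ) → ℂ} (hu : HolOn Y u) (hv : HolOn Y v) :
    HolOn Y (fun y => u y - v y) := by
  intro p hp
  obtain ⟨U, hU, hpU, f, hf, hfu⟩ := hu p hp
  obtain ⟨V, hV, hpV, g, hg, hgv⟩ := hv p hp
  exact ⟨U ∩ V, hU.inter hV, ⟨hpU, hpV⟩, fun y => f y - g y,
    (hf.mono inter_subset_left).fun_sub (hg.mono inter_subset_right),
    fun y hy hyU => by simp only [hfu y hy hyU.1, hgv y hy hyU.2]⟩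

theorem holOn_inv {u : (Fin m → ℂ) → ℂ} (hu : HolOn Y u) (h0 : ∀ y ∈ Y, u y ≠ 0) :
    HolOn Y (fun y => (u y)⁻¹) := by
  intro p hp
  obtain ⟨U, hU, hpU, f, hf, hfu⟩ := hu p hp
  have hc : IsOpen (U ∩ f ⁻¹' {0}ᶜ) :=
    hf.continuousOn.isOpen_inter_preimage hU isOpen_compl_singleton
  refine ⟨U ∩ f ⁻¹' {0}ᶜ, hc, ⟨hpU, ?_⟩, fun y => (f y)⁻¹, ?_, ?_⟩
  · change f p ≠ 0
    rw [hfu p hp hpU]; exact h0 p hp
  · exact (hf.mono inter_subset_left).fun_inv fun x hx => hx.2
  · intro y hy hyU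
    simp only [hfu y hy hyU.1]

theorem holOn_pow {u : (Fin m → ℂ) → ℂ} (hu : HolOn Y u) (n : ℕ) : HolOn Y (fun y => u y ^ n) := by
  induction n with
  | zero => simpa using holOn_const (Y := Y) 1
  | succ n ih => simpa only [pow_succ] using holOn_mul ih hu

theorem holOn_zpow {u : (Fin m → ℂ) → ℂ} (hu : HolOn Y u) (h0 : ∀ y ∈ Y, u y ≠ 0) (n : ℤ) :
    HolOn Y (fun y => u y ^ n) := by
  cases n with
  | ofNat n => simpa using holOn_pow hu n
  | negSucc n =>
    have h1 := holOn_inv (holOn_pow hu (n + 1)) (fun y hy => pow_ne_zero _ (h0 y hy))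
    simpa only [zpow_negSucc] using h1

theorem holOn_prod {ι : Type*} (s : Finset ι) {u : ι → (Fin m → ℂ) → ℂ}
    (hu : ∀ i ∈ s, HolOn Y (u i)) : HolOn Y (fun y => ∏ i ∈ s, u i y) := by
  classical
  induction s using Finset.induction_on with
  | empty => simpa using holOn_const (Y := Y) 1
  | insert i s hi ih =>
    simp only [Finset.prod_insert hi]
    exact holOn_mul (hu i (Finset.mem_insert_self _ _))
      (ih fun j hj => hu j (Finset.mem_insert_of_mem hj))

variable {pr : (Fin m → ℂ) → (Fin k → ℂ)} {δ : MvPolynomial (Fin k) ℂ} {e : ℕ}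

theorem bound_compact (hc : Cov Y pr δ e) {w : (Fin m → ℂ) → ℂ} (hw : ContinuousOn w Y) (R : ℝ) :
    ∃ C : ℝ, 0 ≤ C ∧ ∀ y ∈ Y, ‖pr y‖ ≤ R → ‖w y‖ ≤ C := by
  obtain ⟨R', hR'⟩ := hc.proper R
  have hK : IsCompact (Y ∩ closedBall 0 R') := by
    exact (isCompact_closedBall (0 : Fin m → ℂ) R').inter_left hc.closed
  obtain ⟨C, hC⟩ := hK.exists_bound_of_continuousOn (hw.mono inter_subset_left)
  exact ⟨max C 0, le_max_right _ _, fun y hy hyR =>
    (hC y ⟨hy, mem_closedBall_zero_iff.2 (hR' y hy hyR)⟩).trans (le_max_left _ _)⟩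

/-- fibre -/
def fib (Y : Set (Fin m → ℂ)) (pr : (Fin m → ℂ) → (Fin k → ℂ)) (z : Fin k → ℂ) :
    Set (Fin m → ℂ) := {y | y ∈ Y ∧ pr y = z}

open Polynomial in
/-- the polynomial with the values of `w` on the fibre over `t v` as roots -/
noncomputable def PW (Y : Set (Fin m → ℂ)) (pr : (Fin m → ℂ) → (Fin k → ℂ)) (v : Fin k → ℂ)
    (w : (Fin m → ℂ) → ℂ) (t : ℂ) : ℂ[X] := ∏ᶠ y ∈ fib Y pr (t • v), (X - C (w y))

open Polynomial in
theorem PW_eq {v : Fin k → ℂ} (w : (Fin m → ℂ) → ℂ) (t : ℂ) (f : Fin e → (Fin m → ℂ))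
    (hf : Function.Injective f) (hr : fib Y pr (t • v) = range f) :
    PW Y pr v w t = ∏ i, (X - C (w (f i))) := by
  rw [PW, hr, finprod_mem_range hf, finprod_eq_prod_of_fintype]

theorem injective_of_range_eq {α : Type*} {f g : Fin e → α} (hg : Function.Injective g)
    (h : range f = range g) : Function.Injective f := by
  have h1 : ∀ i, ∃ j, g j = f i := fun i => by
    have : f i ∈ range g := h ▸ mem_range_self i
    exact this
  choose σ hσ using h1
  have hs : Function.Surjective σ := by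
    intro j
    have : g j ∈ range f := h ▸ mem_range_self j
    obtain ⟨i, hi⟩ := this
    exact ⟨i, hg (by rw [hσ, hi])⟩
  have hi := Finite.injective_iff_surjective.2 hs
  intro i j hij
  apply hi
  apply hg
  rw [hσ, hσ, hij]

theorem PW_diff (hc : Cov Y pr δ e) (v : Fin k → ℂ) {w : (Fin m → ℂ) → ℂ} (hw : HolOn Y w)
    (t₀ : ℂ) (h0 : MvPolynomial.eval (t₀ • v) δ ≠ 0) (n : ℕ) :
    DifferentiableAt ℂ (fun t => (PW Y pr v w t).coeff n) t₀ := by
  obtain ⟨r, hr, s, hs, hs'⟩ := hc.sections _ h0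
  have hmem : ∀ i, ∀ z ∈ ball (t₀ • v) r, s i z ∈ Y := by
    intro i z hz
    have : s i z ∈ {y | y ∈ Y ∧ pr y = z} := by
      rw [(hs' z hz).2.2]; exact mem_range_self i
    exact this.1
  have hcont : Continuous (fun t : ℂ => t • v) := continuous_id.smul continuous_const
  have hU : IsOpen ((fun t : ℂ => t • v) ⁻¹' ball (t₀ • v) r) := isOpen_ball.preimage hcont
  have ht₀ : t₀ ∈ (fun t : ℂ => t • v) ⁻¹' ball (t₀ • v) r := mem_ball_self hr
  have h1 : (fun t => (PW Y pr v w t).coeff n) =ᶠ[𝓝 t₀] fun t =>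
      (∏ i, (Polynomial.X - Polynomial.C (w (s i (t • v))))).coeff n := by
    filter_upwards [hU.mem_nhds ht₀] with t ht
    rw [PW_eq w t (fun i => s i (t • v)) (hs' _ ht).2.1 (hs' _ ht).2.2]
  refine DifferentiableAt.congr_of_eventuallyEq ?_ h1
  refine differentiableAt_coeff_prod Finset.univ (fun i t => w (s i (t • v))) t₀ (fun i _ => ?_) n
  have h2 : DifferentiableOn ℂ (fun t : ℂ => s i (t • v))
      ((fun t : ℂ => t • v) ⁻¹' ball (t₀ • v) r) :=
    (hs i).comp (by fun_prop) fun t ht => ht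
  exact (holOn_comp hw hU h2 fun t ht => hmem i _ ht).differentiableAt (hU.mem_nhds ht₀)

theorem eval_line (v : Fin k → ℂ) (D : MvPolynomial (Fin k) ℂ) (t : ℂ) :
    (MvPolynomial.aeval (fun i => Polynomial.X * Polynomial.C (v i)) D : Polynomial ℂ).eval t =
      MvPolynomial.eval (t • v) D := by
  induction D using MvPolynomial.induction_on with
  | C a => simp
  | add p q hp hq => rw [map_add, map_add, Polynomial.eval_add, hp, hq]
  | mul_X p i hp =>
    rw [map_mul, map_mul, Polynomial.eval_mul, hp, MvPolynomial.aeval_X, MvPolynomial.eval_X,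
      Polynomial.eval_mul, Polynomial.eval_X, Polynomial.eval_C]
    rfl

/-- the bad parameters on a line -/
theorem exists_bad (hc : Cov Y pr δ e) (v : Fin k → ℂ) :
    ∃ Z : Finset ℂ, ∀ t, t ∈ Z ↔ MvPolynomial.eval (t • v) δ = 0 := by
  classical
  let q : Polynomial ℂ := MvPolynomial.aeval (fun i => Polynomial.X * Polynomial.C (v i)) δ
  have hq : ∀ t, q.eval t = MvPolynomial.eval (t • v) δ := eval_line v δ
  have hq0 : q ≠ 0 := by
    intro h0
    have h1 := hq 0
    rw [h0, Polynomial.eval_zero, zero_smul] at h1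
    exact hc.base h1.symm
  refine ⟨q.roots.toFinset, fun t => ?_⟩
  rw [Multiset.mem_toFinset, Polynomial.mem_roots hq0, Polynomial.IsRoot, hq]

end Pool.Agent.J4.H11.QH
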