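import Pool.Agent.W603.LV.Der2

/-! Logarithmic derivatives in function fields of one variable over `ℂ`. -/

set_option autoImplicit false
set_option maxHeartbeats 4000000
set_option synthInstance.maxHeartbeats 400000

open FF Pool.Agent.W603.LV

namespace Pool.Agent.J4.H11.QH

section basic

variable {K : Type*} [Field K] [Algebra ℂ K]

/-- logarithmic derivative -/
def ld (D : Derivation ℂ K K) (u : K) : K := D u / u

theorem ld_one (D : Derivation ℂ K K) : ld D 1 = 0 := by simp [ld]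

theorem ld_mul (D : Derivation ℂ K K) {u v : K} (hu : u ≠ 0) (hv : v ≠ 0) :
    ld D (u * v) = ld D u + ld D v := by
  simp only [ld, Derivation.leibniz, smul_eq_mul]
  field_simp
  ring

theorem ld_inv (D : Derivation ℂ K K) {u : K} (hu : u ≠ 0) : ld D u⁻¹ = - ld D u := by
  have h := ld_mul D hu (inv_ne_zero hu)
  rw [mul_inv_cancel₀ hu, ld_one] at h
  linear_combination -h

theorem ld_pow (D : Derivation ℂ K K) {u : K} (hu : u ≠ 0) (n : ℕ) :
    ld D (u ^ n) = n * ld D u := by
  induction n with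
  | zero => simp [ld_one]
  | succ n ih => rw [pow_succ, ld_mul D (pow_ne_zero _ hu) hu, ih]; push_cast; ring

theorem ld_zpow (D : Derivation ℂ K K) {u : K} (hu : u ≠ 0) (n : ℤ) :
    ld D (u ^ n) = n * ld D u := by
  cases n with
  | ofNat n => simpa using ld_pow D hu n
  | negSucc n =>
    rw [zpow_negSucc, ld_inv D (pow_ne_zero _ hu), ld_pow D hu]
    push_cast; ring

theorem ld_prod (D : Derivation ℂ K K) {ι : Type*} (s : Finset ι) (u : ι → K) (a : ι → ℤ)
    (hu : ∀ i ∈ s, u i ≠ 0) :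
    ld D (∏ i ∈ s, u i ^ a i) = ∑ i ∈ s, (a i : K) * ld D (u i) := by
  classical
  induction s using Finset.induction_on with
  | empty => simp [ld_one]
  | insert i s hi ih =>
    have h1 : ∀ j ∈ s, u j ≠ 0 := fun j hj => hu j (Finset.mem_insert_of_mem hj)
    rw [Finset.prod_insert hi, Finset.sum_insert hi,
      ld_mul D (zpow_ne_zero _ (hu i (Finset.mem_insert_self _ _)))
        (Finset.prod_ne_zero_iff.2 fun j hj => zpow_ne_zero _ (h1 j hj)), ih h1,
      ld_zpow D (hu i (Finset.mem_insert_self _ _))]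

theorem const_of_alg {f : K} (hf : IsAlgebraic ℂ f) : ∃ c : ℂ, f = algebraMap ℂ K c := by
  have h1 : (minpoly ℂ f).degree = 1 :=
    IsAlgClosed.degree_eq_one_of_irreducible ℂ (minpoly.irreducible hf.isIntegral)
  obtain ⟨c, hc⟩ := minpoly.mem_range_of_degree_eq_one ℂ f h1
  exact ⟨c, hc.symm⟩

theorem D_alg (D : Derivation ℂ K K) {f : K} (hf : IsAlgebraic ℂ f) : D f = 0 := by
  obtain ⟨c, rfl⟩ := const_of_alg hf
  exact D.map_algebraMap c

end basic

variable {K : Type*} [Field K] [Algebra ℂ K] [IsFF ℂ K]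

theorem exists_uniformizer (P : Place ℂ K) : ∃ π : K, π ≠ 0 ∧ P.ord π = 1 := P.surj

/-- the logarithmic derivative (with respect to a uniformizer) has at most a simple pole, with
residue the order -/
theorem ge_ld (P : Place ℂ K) {π : K} (hπ0 : π ≠ 0) (hπ : P.ord π = 1)
    (δ : Derivation ℂ K K) (hδ : δ π = 1) {u : K} (hu : u ≠ 0) :
    Ge P 0 (ld δ u - (P.ord u : K) / π) := by
  set n := P.ord u with hn
  set w : K := u * π ^ (-n) with hw
  have hw0 : w ≠ 0 := mul_ne_zero hu (zpow_ne_zero _ hπ0)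
  have hwo : P.ord w = 0 := by
    rw [hw, P.ord_mul hu (zpow_ne_zero _ hπ0), P.ord_zpow, hπ]; ring
  have hu' : u = w * π ^ n := by
    rw [hw, mul_assoc, ← zpow_add₀ hπ0]; simp
  have h1 : ld δ u = ld δ w + (n : K) / π := by
    conv_lhs => rw [hu']
    rw [ld_mul δ hw0 (zpow_ne_zero _ hπ0), ld_zpow δ hπ0]
    simp [ld, hδ, div_eq_mul_inv]
  have h2 : Ge P 0 (δ w) := der_reg P hπ δ hδ (Or.inr hwo.ge)
  have h3 : Ge P 0 (ld δ w) := by
    rcases h2 with h2 | h2
    · left; simp [ld, h2]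
    · by_cases h0 : δ w = 0
      · left; simp [ld, h0]
      · right
        rw [ld, P.ord_div h0 hw0, hwo]; simpa using h2
  rw [h1, add_sub_cancel_right]
  exact h3

/-- an exact combination of logarithmic differentials has no residues -/
theorem residue_zero (D : Derivation ℂ K K) (hD : D ≠ 0) {r : ℕ} (u : Fin r → K)
    (hu : ∀ j, u j ≠ 0) (μ : Fin r → ℂ) (a : K)
    (ha : D a = ∑ j, algebraMap ℂ K (μ j) * ld D (u j)) (P : Place ℂ K) :
    ∑ j, μ j * (P.ord (u j) : ℂ) = 0 := by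
  obtain ⟨π, hπ0, hπ⟩ := exists_uniformizer P
  have hDπ : D π ≠ 0 := der_pi_ne_zero hD P hπ
  let δ : Derivation ℂ K K := (D π)⁻¹ • D
  have hδ : δ π = 1 := by simp [δ, hDπ]
  have hδD : ∀ x, δ x = (D π)⁻¹ * D x := fun x => by simp [δ]
  have hld : ∀ x, ld δ x = (D π)⁻¹ * ld D x := fun x => by simp only [ld, hδD]; ring
  have ha' : δ a = ∑ j, algebraMap ℂ K (μ j) * ld δ (u j) := by
    rw [hδD, ha, Finset.mul_sum]
    refine Finset.sum_congr rfl fun j _ => ?_
    rw [hld]; ring
  set S : ℂ := ∑ j, μ j * (P.ord (u j) : ℂ) with hS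
  have hr : Ge P 0 (δ a - algebraMap ℂ K S / π) := by
    have : δ a - algebraMap ℂ K S / π =
        ∑ j, algebraMap ℂ K (μ j) * (ld δ (u j) - (P.ord (u j) : K) / π) := by
      rw [ha', hS, map_sum, Finset.sum_div, ← Finset.sum_sub_distrib]
      refine Finset.sum_congr rfl fun j _ => ?_
      rw [map_mul, map_intCast]; ring
    rw [this]
    refine Ge.sum _ _ fun j _ => ?_
    have := (Ge.const (P := P) (μ j)).mul (ge_ld P hπ0 hπ δ hδ (hu j))
    simpa using this
  have hπg : Ge P 1 π := Or.inr hπ.ge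
  -- `a` is regular
  have hreg : Ge P 0 a := by
    by_contra hna
    simp only [Ge, not_or, not_le] at hna
    obtain ⟨ha0, haneg⟩ := hna
    obtain ⟨N, hN⟩ : ∃ N : ℕ, P.ord a = -((N : ℤ) + 1) := ⟨(-P.ord a - 1).toNat, by omega⟩
    set b : K := a * π ^ (N + 1) with hb
    have hb0 : b ≠ 0 := mul_ne_zero ha0 (pow_ne_zero _ hπ0)
    have hbo : P.ord b = 0 := by
      rw [hb, P.ord_mul ha0 (pow_ne_zero _ hπ0), P.ord_pow, hπ, hN]; push_cast; ring
    have hδb : δ b = π ^ (N + 1) * δ a + a * ((N + 1 : ℕ) * π ^ N) := by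
      rw [hb, Derivation.leibniz, Derivation.leibniz_pow, hδ]
      simp only [smul_eq_mul, nsmul_eq_mul, add_tsub_cancel_right, mul_one]
      ring
    have h1 : Ge P 1 (π * δ b) := by
      have := hπg.mul (der_reg P hπ δ hδ (Or.inr hbo.ge : Ge P 0 b))
      simpa using this
    have h2 : Ge P 1 (π * (π ^ (N + 1) * δ a)) := by
      have e : π * (π ^ (N + 1) * δ a) =
          π ^ (N + 2) * (δ a - algebraMap ℂ K S / π) + algebraMap ℂ K S * π ^ (N + 1) := by
        field_simp
        ring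
      rw [e]
      refine Ge.add ?_ ?_
      · have h3 : Ge P ((N + 2 : ℕ) * 1) (π ^ (N + 2)) := hπg.pow (N + 2)
        exact (h3.mul hr).mono (by push_cast; linarith)
      · have h3 : Ge P ((N + 1 : ℕ) * 1) (π ^ (N + 1)) := hπg.pow (N + 1)
        exact ((Ge.const S).mul h3).mono (by push_cast; linarith)
    have h3 : Ge P 1 (((N + 1 : ℕ) : K) * b) := by
      have e : ((N + 1 : ℕ) : K) * b = π * δ b - π * (π ^ (N + 1) * δ a) := by
        rw [hδb, hb]; ring
      rw [e]; exact h1.sub h2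
    have hN0 : ((N + 1 : ℕ) : K) ≠ 0 := by
      have : CharZero K := charZero_of_injective_algebraMap (algebraMap ℂ K).injective
      exact_mod_cast Nat.succ_ne_zero N
    have hNo : P.ord ((N + 1 : ℕ) : K) = 0 := by
      have := P.ord_const (c := ((N + 1 : ℕ) : ℂ)) (by exact_mod_cast Nat.succ_ne_zero N)
      simpa using this
    rcases h3 with h3 | h3
    · exact (mul_ne_zero hN0 hb0) h3
    · rw [P.ord_mul hN0 hb0, hNo, hbo] at h3; omega
  have h1 : Ge P 0 (algebraMap ℂ K S / π) := by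
    have := (der_reg P hπ δ hδ hreg).sub hr
    simpa using this
  by_contra hS0
  have hS0' : algebraMap ℂ K S ≠ 0 := by simpa using hS0
  rcases h1 with h1 | h1
  · exact (div_ne_zero hS0' hπ0) h1
  · rw [P.ord_div hS0' hπ0, hπ, P.ord_const hS0] at h1; omega

/-- an element without zeros is constant -/
theorem alg_of_ord {f : K} (h : ∀ P : Place ℂ K, P.ord f = 0) : IsAlgebraic ℂ f := by
  by_contra hf
  obtain ⟨S, hS, hd, hsum⟩ := zeros (k := ℂ) (K := K) (f := f) hf
  have := IsFF.finite (k := ℂ) (K := K) (f := f) hf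
  have hpos : 0 < Module.finrank (IntermediateField.adjoin ℂ {f}) K := Module.finrank_pos
  rw [← hsum] at hpos
  obtain ⟨w, hw, _⟩ := Finset.exists_ne_zero_of_sum_ne_zero hpos.ne'
  have := (hS w).1 hw
  rw [h w] at this
  exact lt_irrefl _ this

/-- multiplicative independence modulo constants -/
def MIndep {K : Type*} [Field K] [Algebra ℂ K] {r : ℕ} (u : Fin r → K) : Prop :=
  ∀ a : Fin r → ℤ, IsAlgebraic ℂ (∏ j, u j ^ a j) → a = 0

theorem exact_zero (D : Derivation ℂ K K) (hD : D ≠ 0) {r : ℕ} (u : Fin r → K)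
    (hu : ∀ j, u j ≠ 0) (hind : MIndep u) (μ : Fin r → ℂ) (a : K)
    (ha : D a = ∑ j, algebraMap ℂ K (μ j) * ld D (u j)) : μ = 0 := by
  by_contra hμ
  obtain ⟨j0, hj0⟩ : ∃ j, μ j ≠ 0 := by
    by_contra hc
    push Not at hc
    exact hμ (funext hc)
  obtain ⟨lam, hlam⟩ := Module.exists_dual_forall_apply_ne_zero (K := ℚ)
    (fun _ : Unit => μ j0) (fun _ => hj0)
  have hlam0 : lam (μ j0) ≠ 0 := hlam ()
  have hq : ∀ P : Place ℂ K, ∑ j, lam (μ j) * (P.ord (u j) : ℚ) = 0 := by
    intro P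
    have h := residue_zero D hD u hu μ a ha P
    have h2 := congrArg lam h
    rw [map_sum, map_zero] at h2
    rw [← h2]
    refine Finset.sum_congr rfl fun j _ => ?_
    have : μ j * (P.ord (u j) : ℂ) = (P.ord (u j) : ℤ) • μ j := by
      rw [zsmul_eq_mul]; ring
    rw [this, map_zsmul, zsmul_eq_mul]; ring
  -- clear denominators
  obtain ⟨M, hM0, hM⟩ : ∃ M : ℤ, M ≠ 0 ∧ ∀ j, ∃ z : ℤ, (M : ℚ) * lam (μ j) = z := by
    refine ⟨∏ j, ((lam (μ j)).den : ℤ), Finset.prod_ne_zero_iff.2 fun j _ => ?_, fun j => ?_⟩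
    · exact_mod_cast (lam (μ j)).den_ne_zero
    · rw [← Finset.mul_prod_erase _ _ (Finset.mem_univ j)]
      refine ⟨(∏ i ∈ Finset.univ.erase j, ((lam (μ i)).den : ℤ)) * (lam (μ j)).num, ?_⟩
      push_cast
      have := Rat.den_mul_eq_num (lam (μ j))
      rw [← this]; ring
  choose z hz using hM
  have hz0 : z ≠ 0 := by
    intro h0
    have h1 := hz j0
    rw [h0] at h1
    simp only [Pi.zero_apply, Int.cast_zero, mul_eq_zero, Int.cast_eq_zero] at h1
    exact h1.elim hM0 hlam0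
  refine hz0 (hind z (alg_of_ord fun P => ?_))
  have hprod : P.ord (∏ j, u j ^ z j) = ∑ j, z j * P.ord (u j) := by
    have : ∀ s : Finset (Fin r), P.ord (∏ j ∈ s, u j ^ z j) = ∑ j ∈ s, z j * P.ord (u j) := by
      intro s
      classical
      induction s using Finset.induction_on with
      | empty => simp [P.ord_one]
      | insert i s hi ih =>
        rw [Finset.prod_insert hi, Finset.sum_insert hi, P.ord_mul (zpow_ne_zero _ (hu i))
          (Finset.prod_ne_zero_iff.2 fun j _ => zpow_ne_zero _ (hu j)), P.ord_zpow, ih]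
    exact this _
  rw [hprod]
  have h1 : ((∑ j, z j * P.ord (u j) : ℤ) : ℚ) = 0 := by
    push_cast
    have : ∑ j, (z j : ℚ) * (P.ord (u j) : ℚ) = M * ∑ j, lam (μ j) * (P.ord (u j) : ℚ) := by
      rw [Finset.mul_sum]
      refine Finset.sum_congr rfl fun j _ => ?_
      rw [← hz j]; ring
    rw [this, hq P, mul_zero]
  exact_mod_cast h1

end Pool.Agent.J4.H11.QH
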