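import Pool.Agent.J4.H11.QH.Log

/-! The cubic relation satisfied by the exponents of a solution, and its nondegeneracy. -/

set_option autoImplicit false
set_option maxHeartbeats 4000000
set_option synthInstance.maxHeartbeats 400000

open FF Pool.Agent.W603.LV

namespace Pool.Agent.J4.H11.QH

section defs

variable {K : Type*} [Field K] [Algebra ℂ K] {r : ℕ}

/-- linear combination with real coefficients -/
noncomputable def cb (w : Fin r → K) (m : Fin r → ℝ) : K := ∑ j, algebraMap ℝ K (m j) * w j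

theorem cb_add (w : Fin r → K) (m m' : Fin r → ℝ) : cb w (m + m') = cb w m + cb w m' := by
  simp only [cb, Pi.add_apply, map_add, add_mul, Finset.sum_add_distrib]

theorem cb_smul (w : Fin r → K) (t : ℝ) (m : Fin r → ℝ) :
    cb w (t • m) = algebraMap ℝ K t * cb w m := by
  simp only [cb, Pi.smul_apply, smul_eq_mul, map_mul, Finset.mul_sum]
  exact Finset.sum_congr rfl fun _ _ => by ring

/-- the cubic map -/
noncomputable def EE (w w' : Fin r → K) (m n : Fin r → ℝ) : K :=
  cb w n * cb w' m - cb w m * cb w' n - cb w m * cb w n * (cb w n - cb w m)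

/-- its differential -/
noncomputable def dEE (w w' : Fin r → K) (m n μ ν : Fin r → ℝ) : K :=
  cb w ν * cb w' m + cb w n * cb w' μ - cb w μ * cb w' n - cb w m * cb w' ν -
    (cb w μ * cb w n * (cb w n - cb w m) + cb w m * cb w ν * (cb w n - cb w m) +
      cb w m * cb w n * (cb w ν - cb w μ))

end defs

variable {K : Type*} [Field K] [Algebra ℂ K] {r : ℕ}

theorem D_cb (D : Derivation ℂ K K) (w : Fin r → K) (m : Fin r → ℝ) :
    D (cb w m) = cb (fun j => D (w j)) m := by
  simp only [cb, map_sum]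
  refine Finset.sum_congr rfl fun j _ => ?_
  rw [Derivation.leibniz]
  have : D (algebraMap ℝ K (m j)) = 0 := by
    rw [IsScalarTower.algebraMap_apply ℝ ℂ K]
    exact D.map_algebraMap _
  rw [this]; simp

/-- formal identity behind the nondegeneracy -/
theorem D_ratio (D : Derivation ℂ K K) {X Y ξ η : K} (hY : Y ≠ 0) (hYX : Y - X ≠ 0)
    (hE : Y * D X - X * D Y - X * Y * (Y - X) = 0)
    (hdE : η * D X + Y * D ξ - ξ * D Y - X * D η -
      (ξ * Y * (Y - X) + X * η * (Y - X) + X * Y * (η - ξ)) = 0) :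
    D ((Y * ξ - X * η) / (Y * (Y - X))) = ξ := by
  have hG : Y * (Y - X) ≠ 0 := mul_ne_zero hY hYX
  rw [Derivation.leibniz_div]
  simp only [smul_eq_mul, map_sub, Derivation.leibniz]
  rw [inv_pow, inv_mul_eq_iff_eq_mul₀ (pow_ne_zero _ hG)]
  linear_combination (Y * (Y - X)) * hdE - (η * (Y - X) + Y * (η - ξ)) * hE

theorem ratio_eq (D : Derivation ℂ K K) {f : K} (hf0 : f ≠ 0) (hf1 : 1 - f ≠ 0)
    (hDf : D f ≠ 0) {X Y : K} (hX : ld D f = X) (hY : ld D (1 - f) = Y) :
    X ≠ 0 ∧ Y ≠ 0 ∧ Y - X ≠ 0 ∧ f = Y / (Y - X) ∧ Y * D X - X * D Y - X * Y * (Y - X) = 0 := by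
  have hD1 : D (1 - f) = - D f := by simp
  have hX' : D f = f * X := by rw [← hX, ld]; field_simp
  have hY' : - D f = (1 - f) * Y := by rw [← hY, ld, hD1]; field_simp
  have hX0 : X ≠ 0 := by
    rintro rfl; exact hDf (by rw [hX', mul_zero])
  have hY0 : Y ≠ 0 := by
    rintro rfl
    rw [mul_zero, neg_eq_zero] at hY'; exact hDf hY'
  have h1 : f * (Y - X) = Y := by linear_combination hX' + hY'
  have hYX : Y - X ≠ 0 := by
    intro h0; rw [h0, mul_zero] at h1; exact hY0 h1.symm
  refine ⟨hX0, hY0, hYX, by rw [eq_div_iff hYX, h1], ?_⟩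
  -- differentiate `f * (Y - X) = Y`
  have h2 : f * (D Y - D X) + (Y - X) * D f = D Y := by
    have := congrArg D h1
    rw [Derivation.leibniz] at this
    simpa [smul_eq_mul] using this
  have h3 : (Y - X) * (f * (D Y - D X) + (Y - X) * D f - D Y) = 0 := by rw [h2]; ring
  rw [hX'] at h3
  linear_combination (-1 : K) * h3 + ((D Y - D X) + (Y - X) * X) * h1

theorem nondeg [IsFF ℂ K] (D : Derivation ℂ K K) (hD : D ≠ 0) (u : Fin r → K)
    (hu : ∀ j, u j ≠ 0) (hind : MIndep u) {f : K} (hf : Transcendental ℂ f)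
    (m n μ ν : Fin r → ℝ) (hX : ld D f = cb (fun j => ld D (u j)) m)
    (hY : ld D (1 - f) = cb (fun j => ld D (u j)) n)
    (hdE : dEE (fun j => ld D (u j)) (fun j => D (ld D (u j))) m n μ ν = 0) :
    μ = 0 ∧ ν = 0 := by
  have hf0 : f ≠ 0 := by rintro rfl; exact hf isAlgebraic_zero
  have hf1 : 1 - f ≠ 0 := by
    intro h; rw [sub_eq_zero] at h; rw [← h] at hf; exact hf isAlgebraic_one
  obtain ⟨hX0, hY0, hYX, -, hE⟩ := ratio_eq D hf0 hf1 (der_ne_zero hD hf) hX hY
  simp only [dEE, ← D_cb] at hdE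
  have h1 := D_ratio D hY0 hYX hE hdE
  have hXY : cb (fun j => ld D (u j)) m - cb (fun j => ld D (u j)) n ≠ 0 := by
    intro h; apply hYX; linear_combination -h
  have h2 := D_ratio D (X := cb (fun j => ld D (u j)) n) (Y := cb (fun j => ld D (u j)) m)
    (ξ := cb (fun j => ld D (u j)) ν) (η := cb (fun j => ld D (u j)) μ) hX0 hXY
    (by linear_combination -hE) (by linear_combination -hdE)
  have key : ∀ (ρ : Fin r → ℝ) (a : K), D a = cb (fun j => ld D (u j)) ρ → ρ = 0 := by
    intro ρ a ha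
    have := exact_zero D hD u hu hind (fun j => (ρ j : ℂ)) a (by
      rw [ha, cb]
      refine Finset.sum_congr rfl fun j _ => ?_
      rw [IsScalarTower.algebraMap_apply ℝ ℂ K]; rfl)
    funext j
    have h := congrFun this j
    simpa using h
  exact ⟨key μ _ h1, key ν _ h2⟩

end Pool.Agent.J4.H11.QH
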