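import Pool.Agent.J4.H11.QH.Count
import Pool.Agent.W603.PV.Deriv

/-! The number of nonconstant solutions of `f + g = 1` in a group of given rank. -/

set_option autoImplicit false
set_option maxHeartbeats 4000000
set_option synthInstance.maxHeartbeats 400000

open FF Pool.Agent.W603.LV

namespace Pool.Agent.J4.H11.QH

variable {K : Type*} [Field K] [Algebra ℂ K]

theorem ld_alg (D : Derivation ℂ K K) {f : K} (hf : IsAlgebraic ℂ f) : ld D f = 0 := by
  rw [ld, D_alg D hf, zero_div]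

theorem exists_max (H : Set K) (s : ℕ)
    (hrank : ∀ u : Fin (s + 1) → K, (∀ l, u l ∈ H) →
      ∃ a : Fin (s + 1) → ℤ, a ≠ 0 ∧ IsAlgebraic ℂ (∏ l, u l ^ a l)) :
    ∃ r ≤ s, ∃ u : Fin r → K, (∀ l, u l ∈ H) ∧ MIndep u ∧
      ∀ h ∈ H, ∃ (a : Fin r → ℤ) (b : ℤ), b ≠ 0 ∧ IsAlgebraic ℂ ((∏ l, u l ^ a l) * h ^ b) := by
  classical
  let P : ℕ → Prop := fun r => ∃ u : Fin r → K, (∀ l, u l ∈ H) ∧ MIndep u
  have h0 : P 0 := ⟨fun l => l.elim0, fun l => l.elim0, fun a _ => funext fun l => l.elim0⟩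
  have hle : ∀ r, P r → r ≤ s := by
    rintro r ⟨u, hu, hi⟩
    by_contra hc
    push Not at hc
    obtain ⟨a, ha0, ha⟩ := hrank (fun l => u (Fin.castLE hc l)) (fun l => hu _)
    obtain ⟨t, ht⟩ : ∃ t, r = (s + 1) + t := ⟨r - (s + 1), by omega⟩
    subst ht
    have h1 := hi (Fin.append a (fun _ => 0)) (by
      rw [Fin.prod_univ_add]
      simp only [Fin.append_left, Fin.append_right, zpow_zero, Finset.prod_const_one, mul_one]
      exact ha)
    apply ha0
    funext l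
    have h2 := congrFun h1 (Fin.castAdd t l)
    simpa using h2
  obtain ⟨hr1, hr2⟩ : P (Nat.findGreatest P s) ∧ Nat.findGreatest P s ≤ s :=
    ⟨Nat.findGreatest_spec (Nat.zero_le s) h0, Nat.findGreatest_le s⟩
  set r := Nat.findGreatest P s with hr
  have hr3 : ¬ P (r + 1) := by
    intro h
    have h1 := Nat.le_findGreatest (hle _ h) h
    rw [← hr] at h1; omega
  obtain ⟨u, hu, hi⟩ := hr1
  refine ⟨r, hr2, u, hu, hi, fun h hh => ?_⟩
  have h1 : ¬ MIndep (Fin.snoc (α := fun _ => K) u h) := by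
    intro h2
    refine hr3 ⟨_, fun l => ?_, h2⟩
    refine Fin.lastCases ?_ (fun l => ?_) l
    · simpa using hh
    · simpa using hu l
  simp only [MIndep, not_forall] at h1
  obtain ⟨a, ha, ha0⟩ := h1
  rw [Fin.prod_univ_castSucc] at ha
  simp only [Fin.snoc_castSucc, Fin.snoc_last] at ha
  refine ⟨fun l => a l.castSucc, a (Fin.last r), fun hb => ha0 ?_, ha⟩
  rw [hb, zpow_zero, mul_one] at ha
  have h2 := hi _ ha
  funext l
  refine Fin.lastCases ?_ (fun l => ?_) l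
  · exact hb
  · exact congrFun h2 l

theorem unit_bound [IsFF ℂ K] (s : ℕ) (I : Finset K) (hI : ∀ f ∈ I, Transcendental ℂ f)
    (hrank : ∀ u : Fin (s + 1) → K, (∀ l, ∃ f ∈ I, u l = f ∨ u l = 1 - f) →
      ∃ a : Fin (s + 1) → ℤ, a ≠ 0 ∧ IsAlgebraic ℂ (∏ l, u l ^ a l)) :
    I.card ≤ (6 * s + 1) ^ (2 * s) := by
  classical
  have hchar : CharZero K := charZero_of_injective_algebraMap (algebraMap ℂ K).injective
  -- a derivation
  obtain ⟨z, hz⟩ := IsFF.exists_transcendental (k := ℂ) (K := K)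
  have hess : Algebra.EssFiniteType ℂ K := IsFF.ess
  obtain ⟨D, hDz⟩ := Pool.Agent.W603.PV.exists_derivation hz
  have hD : D ≠ 0 := by rintro rfl; exact hDz rfl
  obtain ⟨r, hrs, u, hu, hi, hmax⟩ := exists_max {x : K | ∃ f ∈ I, x = f ∨ x = 1 - f} s hrank
  have hne : ∀ x ∈ {x : K | ∃ f ∈ I, x = f ∨ x = 1 - f}, x ≠ 0 := by
    rintro x ⟨f, hf, rfl | rfl⟩
    · rintro rfl; exact hI _ hf isAlgebraic_zero
    · intro h; rw [sub_eq_zero] at h; exact hI _ hf (h ▸ isAlgebraic_one)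
  have hu0 : ∀ l, u l ≠ 0 := fun l => hne _ (hu l)
  have hexp : ∀ h ∈ {x : K | ∃ f ∈ I, x = f ∨ x = 1 - f},
      ∃ m : Fin r → ℝ, ld D h = cb (fun j => ld D (u j)) m := by
    intro h hh
    obtain ⟨a, b, hb, hab⟩ := hmax h hh
    have h1 := ld_alg D hab
    rw [ld_mul D (Finset.prod_ne_zero_iff.2 fun l _ => zpow_ne_zero _ (hu0 l))
      (zpow_ne_zero _ (hne h hh)), ld_prod D _ _ _ (fun l _ => hu0 l), ld_zpow D (hne h hh)] at h1
    have hbK : (b : K) ≠ 0 := by exact_mod_cast hb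
    refine ⟨fun j => - (a j : ℝ) / b, ?_⟩
    have h2 : ld D h = - (∑ i, (a i : K) * ld D (u i)) / b := by
      rw [eq_div_iff hbK]; linear_combination h1
    rw [h2, cb, ← Finset.sum_neg_distrib, Finset.sum_div]
    refine Finset.sum_congr rfl fun j _ => ?_
    rw [map_div₀, map_neg, map_intCast, map_intCast]
    ring
  have hm : ∀ f ∈ I, ∃ m : Fin r → ℝ, ld D f = cb (fun j => ld D (u j)) m := fun f hf =>
    hexp f ⟨f, hf, Or.inl rfl⟩
  have hn : ∀ f ∈ I, ∃ n : Fin r → ℝ, ld D (1 - f) = cb (fun j => ld D (u j)) n := fun f hf =>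
    hexp (1 - f) ⟨f, hf, Or.inr rfl⟩
  choose! m hm using hm
  choose! n hn using hn
  have hf1 : ∀ f ∈ I, f = cb (fun j => ld D (u j)) (n f) /
      (cb (fun j => ld D (u j)) (n f) - cb (fun j => ld D (u j)) (m f)) ∧
      EE (fun j => ld D (u j)) (fun j => D (ld D (u j))) (m f) (n f) = 0 := by
    intro f hf
    obtain ⟨-, -, -, h1, h2⟩ := ratio_eq D (hne f ⟨f, hf, Or.inl rfl⟩)
      (hne (1 - f) ⟨f, hf, Or.inr rfl⟩) (der_ne_zero hD (hI f hf)) (hm f hf) (hn f hf)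
    refine ⟨h1, ?_⟩
    simp only [EE, ← D_cb]
    exact h2
  have hfst : ∀ f, fstc (Fin.append (m f) (n f)) = m f := fun f => by
    funext j; exact Fin.append_left (m f) (n f) j
  have hsnd : ∀ f, sndc (Fin.append (m f) (n f)) = n f := fun f => by
    funext j; exact Fin.append_right (m f) (n f) j
  have hcard : (I.image fun f => Fin.append (m f) (n f)).card = I.card := by
    refine Finset.card_image_of_injOn fun f hf g hg hfg => ?_
    have h1 : m f = m g := by rw [← hfst f, ← hfst g]; exact congrArg fstc hfg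
    have h2 : n f = n g := by rw [← hsnd f, ← hsnd g]; exact congrArg sndc hfg
    rw [(hf1 f hf).1, (hf1 g hg).1, h1, h2]
  rw [← hcard]
  refine (count_le (fun j => ld D (u j)) (fun j => D (ld D (u j))) _ ?_ ?_).trans ?_
  · intro p hp
    obtain ⟨f, hf, rfl⟩ := Finset.mem_image.1 hp
    rw [hfst, hsnd]; exact (hf1 f hf).2
  · intro p hp μ ν h
    obtain ⟨f, hf, rfl⟩ := Finset.mem_image.1 hp
    rw [hfst, hsnd] at h
    exact nondeg D hD u hu0 hi (hI f hf) (m f) (n f) μ ν (hm f hf) (hn f hf) h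
  · calc (6 * r + 1) ^ (2 * r) ≤ (6 * s + 1) ^ (2 * r) := Nat.pow_le_pow_left (by omega) _
      _ ≤ (6 * s + 1) ^ (2 * s) := Nat.pow_le_pow_right (by omega) (by omega)

end Pool.Agent.J4.H11.QH
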